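import Pool.Agent.Q177.AC.Stm

set_option autoImplicit false

/-!
Project AC (helper177): assembly of the negative answer to Q1 of MP_efec2f_gt.
-/

namespace Pool.Agent.Q177.AC

open Filter Topology

noncomputable section

theorem dT_congr {n n' h h' : ℝ} (h1 : n ≤ max n' (max (Real.exp h) (Real.exp h'))) (h2 : n' ≤ max n (max (Real.exp h) (Real.exp h'))) :
    dT n h h' = dT n' h h' := by
  unfold dT
  have : max n (max (Real.exp h) (Real.exp h')) = max n' (max (Real.exp h) (Real.exp h')) :=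
    le_antisymm (max_le h1 (le_max_right _ _)) (max_le h2 (le_max_right _ _))
  rw [this]

theorem dT_zero {n h : ℝ} (h1 : n ≤ Real.exp h) : dT n h h = 0 := by
  unfold dT
  rw [max_self, max_eq_right h1, Real.log_exp]
  ring

/-- isometry of the separation quotients -/
theorem sep_iso {A B : Type} [PseudoMetricSpace A] [PseudoMetricSpace B] (F : A → B) (h1 : ∀ p q, dist (F p) (F q) = dist p q)
    (h2 : ∀ q, ∃ p, dist (F p) q = 0) : Nonempty (SeparationQuotient A ≃ᵢ SeparationQuotient B) := by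
  have hins : ∀ p q, Inseparable p q → SeparationQuotient.mk (F p) = SeparationQuotient.mk (F q) := by
    intro p q hpq
    rw [SeparationQuotient.mk_eq_mk, Metric.inseparable_iff, h1]
    exact Metric.inseparable_iff.1 hpq
  obtain ⟨G, hG⟩ : ∃ G : SeparationQuotient A → SeparationQuotient B, ∀ p, G (SeparationQuotient.mk p) = SeparationQuotient.mk (F p) :=
    ⟨SeparationQuotient.lift (fun p => SeparationQuotient.mk (F p)) hins, fun p => rfl⟩
  have hiso : Isometry G := by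
    refine Isometry.of_dist_eq fun x y => ?_
    obtain ⟨p, rfl⟩ := SeparationQuotient.surjective_mk x
    obtain ⟨q, rfl⟩ := SeparationQuotient.surjective_mk y
    rw [hG, hG, SeparationQuotient.dist_mk, SeparationQuotient.dist_mk, h1]
  have hsurj : Function.Surjective G := by
    intro y
    obtain ⟨q, rfl⟩ := SeparationQuotient.surjective_mk y
    obtain ⟨p, hp⟩ := h2 q
    refine ⟨SeparationQuotient.mk p, ?_⟩
    rw [hG, SeparationQuotient.mk_eq_mk, Metric.inseparable_iff]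
    exact hp
  exact ⟨⟨Equiv.ofBijective G ⟨hiso.injective, hsurj⟩, hiso⟩⟩

theorem USpace.neg {V : Type} [AddCommGroup V] [Module ℚ V] {ν : V → ℝ} (h : USpace V ν) (x : V) : ν (-x) = ν x := by
  have := h.smul (-1) x (by norm_num)
  rwa [neg_one_smul] at this

theorem USpace.sub {V : Type} [AddCommGroup V] [Module ℚ V] {ν : V → ℝ} (h : USpace V ν) (x y : V) : ν (x - y) ≤ max (ν x) (ν y) := by
  rw [sub_eq_add_neg]
  have := h.add x (-y)
  rwa [h.neg] at this

/-- the isometry of the cones -/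
theorem cone_iso (hN : S_NU) (hS : S_SPH) (hR : S_RES) (hH : S_HAHN) (hC : S_CON)
    (K L : Type) [NormedField K] [CharZero K] [NormedField L] [CharZero L] (gK : Good K) (gL : Good L)
    (X Y : Type) [MetricSpace X] [MetricSpace Y] (π : K → ℝ → X) (τ : L → ℝ → Y) (C D : ℝ) (h1 : ∀ p, ∃ x h, π x h = p)
    (h2 : ∀ x h x' h', |dist (π x h) (π x' h') - dT ‖x - x'‖ h h'| ≤ C) (h3 : ∀ p, ∃ x h, τ x h = p)
    (h4 : ∀ x h x' h', |dist (τ x h) (τ x' h') - dT ‖x - x'‖ h h'| ≤ D) (ω : Ultrafilter ℕ) (hω : (ω : Filter ℕ) ≤ atTop) (r : Scales)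
    (x : ℕ → X) (y : ℕ → Y) : Nonempty (Cone ω x r ≃ᵢ Cone ω y r) := by
  obtain ⟨β, Θ, t1, t2⟩ := hC K X π C h1 h2 ω hω r x
  obtain ⟨β', Θ', t3, t4⟩ := hC L Y τ D h3 h4 ω hω r y
  have U1 : USpace (Vs K β r) (nu ω) := by
    obtain ⟨a1, a2, a3, a4⟩ := hN K ω hω β r
    exact ⟨a1, a2, a3, a4, hS K ω hω β r, fun ρ hρ => hR K gK ω hω β r ρ hρ⟩
  have U2 : USpace (Vs L β' r) (nu ω) := by
    obtain ⟨a1, a2, a3, a4⟩ := hN L ω hω β' r
    exact ⟨a1, a2, a3, a4, hS L ω hω β' r, fun ρ hρ => hR L gL ω hω β' r ρ hρ⟩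
  obtain ⟨φ, f1, f2⟩ := hH _ _ _ _ U1 U2
  have hF : ∀ p : ConeSeq ω x r, ∃ q : ConeSeq ω y r, nu ω ((Θ' q).1 - φ (Θ p).1) ≤ Real.exp (Θ p).2 ∧ (Θ' q).2 = (Θ p).2 :=
    fun p => t4 (φ (Θ p).1) (Θ p).2
  choose F F1 F2 using hF
  refine sep_iso F ?_ ?_
  · intro p q
    rw [t3, t1, F2, F2]
    have g1 := F1 p
    have g2 := F1 q
    have g3 : nu ω (φ ((Θ p).1 - (Θ q).1)) = nu ω ((Θ p).1 - (Θ q).1) := f1 _
    apply dT_congr
    · have e1 : (Θ' (F p)).1 - (Θ' (F q)).1 = ((Θ' (F p)).1 - φ (Θ p).1) + (φ ((Θ p).1 - (Θ q).1) - ((Θ' (F q)).1 - φ (Θ q).1)) := by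
        rw [map_sub]
        abel
      rw [e1]
      refine (U2.add _ _).trans (max_le (g1.trans (le_max_of_le_right (le_max_left _ _))) ((U2.sub _ _).trans (max_le ?_ ?_)))
      · rw [g3]
        exact le_max_left _ _
      · exact g2.trans (le_max_of_le_right (le_max_right _ _))
    · rw [← g3]
      have e1 : φ ((Θ p).1 - (Θ q).1) = ((Θ' (F p)).1 - (Θ' (F q)).1) - (((Θ' (F p)).1 - φ (Θ p).1) - ((Θ' (F q)).1 - φ (Θ q).1)) := by
        rw [map_sub]
        abel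
      rw [e1]
      refine (U2.sub _ _).trans (max_le (le_max_left _ _) ((U2.sub _ _).trans (max_le ?_ ?_)))
      · exact g1.trans (le_max_of_le_right (le_max_left _ _))
      · exact g2.trans (le_max_of_le_right (le_max_right _ _))
  · intro q
    obtain ⟨v, hv⟩ := f2 (Θ' q).1
    obtain ⟨p, hp1, hp2⟩ := t2 v (Θ' q).2
    refine ⟨p, ?_⟩
    rw [t3, F2, hp2]
    apply dT_zero
    have g1 := F1 p
    rw [hp2] at g1
    have e1 : (Θ' (F p)).1 - (Θ' q).1 = ((Θ' (F p)).1 - φ (Θ p).1) + (φ ((Θ p).1 - v) - ((Θ' q).1 - φ v)) := by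
      rw [map_sub]
      abel
    rw [e1]
    refine (U2.add _ _).trans (max_le g1 ((U2.sub _ _).trans (max_le ?_ ?_)))
    · rw [f1]
      exact hp1
    · rw [hv]
      exact (Real.exp_pos _).le

/-- isometric metric spaces are bi-Lipschitz equivalent -/
theorem biLip_of_iso {A B : Type} [MetricSpace A] [MetricSpace B] (h : Nonempty (A ≃ᵢ B)) : BiLip A B := by
  obtain ⟨e⟩ := h
  exact ⟨e.toEquiv, 1, one_pos, fun a b => ⟨by rw [one_mul]; exact (e.isometry.dist_eq a b).le, by rw [one_mul]; exact (e.isometry.dist_eq a b).ge⟩⟩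

theorem realizable_pos {X : Type} [MetricSpace X] {f : ℕ → ℝ} (h : Realizable X Set.univ f) : Realizable X Pos f := by
  obtain ⟨p, A, B, hA, hB, N₀, hN, hp⟩ := h
  exact ⟨fun n => p ⟨n.1, Set.mem_univ _⟩, A, B, hA, hB, N₀, hN, fun m n hmn => hp ⟨m.1, Set.mem_univ _⟩ ⟨n.1, Set.mem_univ _⟩ hmn⟩

/-- the spectra differ -/
theorem spec_ne (hL : S_LIN) (hLog : S_LOG) {X : Type} [MetricSpace X] (hG : Geodesic X) (h4 : FourPoint X) (I : Set ℤ)
    (hI : ∀ f, Realizable X I f → Realizable X Pos f) : Spectrum X I ≠ Spectrum UpperHalfPlane I := by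
  obtain ⟨l1, l2, l3⟩ := hLog
  intro heq
  have h1 : growthType f0 ∈ Spectrum UpperHalfPlane I := ⟨f0, l1, l2 I, rfl⟩
  rw [← heq] at h1
  obtain ⟨f, hf, hr, he⟩ := h1
  have h2 : f0 ∈ growthType f := by
    rw [← he]
    exact ⟨l1, 1, 1, one_pos, one_pos, Eventually.of_forall fun N => by rw [one_mul]; exact ⟨le_rfl, le_rfl⟩⟩
  obtain ⟨-, c, C, hc, hC, hcC⟩ := h2
  obtain ⟨d, hd, hdf⟩ := hL X hG h4 f hf (hI f hr)
  have h5 := l3 (d / C) (div_pos hd hC)
  obtain ⟨N, hN⟩ := (h5.and (hcC.and (hdf.and (eventually_ge_atTop 1)))).exists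
  obtain ⟨n1, ⟨n2, n3⟩, n4, n5⟩ := hN
  have n6 : d * N ≤ C * f0 N := n4.trans n3
  have n7 : C * f0 N < C * (d / C * N) := mul_lt_mul_of_pos_left n1 hC
  have n8 : C * (d / C * N) = d * N := by
    field_simp
  linarith

/-- the negative answer to Q1 of MP_efec2f_gt -/
theorem main (hG : S_TRG) (hP : S_TRP) (h4 : S_TR4) (hL : S_LIN) (hHG : S_HYG) (hHC : S_HYC) (hLog : S_LOG) (hGood : S_GOOD)
    (hN : S_NU) (hS : J_SPH) (hR : J_RES) (hH : S_HAHN) (hC : S_CON) : S_main := by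
  obtain ⟨D, hD⟩ := hHC
  refine ⟨Tree ℚ_[2], UpperHalfPlane, inferInstance, inferInstance, hP ℚ_[2], inferInstance, hG ℚ_[2], hHG, ?_, ?_, ?_⟩
  · intro ω hω r x y
    have hω := le_atTop_of_ne hω
    have h : Nonempty (Cone ω x r ≃ᵢ Cone ω y r) := by
      refine cone_iso hN (hS hN) (hR hN) hH hC ℚ_[2] ℝ hGood.2 hGood.1 (Tree ℚ_[2]) UpperHalfPlane Tree.pt hp 0 D ?_ ?_ ?_ hD ω hω r x y
      · intro p
        obtain ⟨⟨a, b⟩, rfl⟩ := SeparationQuotient.surjective_mk p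
        exact ⟨a, b, rfl⟩
      · intro x h x' h'
        rw [Tree.dist_pt, sub_self, abs_zero]
      · intro p
        refine ⟨p.re, Real.log p.im, ?_⟩
        apply UpperHalfPlane.ext
        show (⟨p.re, Real.exp (Real.log p.im)⟩ : ℂ) = (p : ℂ)
        rw [Real.exp_log p.im_pos]
        rfl
    exact ⟨h, biLip_of_iso h⟩
  · exact spec_ne hL hLog (hG ℚ_[2]) (h4 ℚ_[2]) Pos (fun f h => h)
  · exact spec_ne hL hLog (hG ℚ_[2]) (h4 ℚ_[2]) Set.univ (fun f h => realizable_pos h)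

end

end Pool.Agent.Q177.AC
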