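import Mathlib

set_option autoImplicit false

/-!
Project AC (helper177), row MP_efec2f_gt (asymptotic cones and sequence distortion spectra, Q1, answer NO).

`X` = metric tree of balls of `ℚ_2` (the regular tree of valence 3), `Y` = upper half plane. All their asymptotic cones are isometric, but the growth type of
`2 arsinh (N/2)` (i.e. `log`) is realized in `Y` (horocycle) and not in `X` (only linear functions are).
This file: the definitions of the problem, ultralimits, the tree of balls of an ultrametric group, sequences of exponential size.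
-/

namespace Pool.Agent.Q177.AC

open Filter Topology

noncomputable section

/-! ### the definitions of the problem -/

/-- `f` (only its values at the integers `≥ 1` matter) is a rate function: positive, nondecreasing, unbounded, scaling invariant -/
def IsRate (f : ℕ → ℝ) : Prop :=
  (∀ n, 1 ≤ n → 0 < f n) ∧ (∀ m n, 1 ≤ m → m ≤ n → f m ≤ f n) ∧ (∀ K : ℝ, ∃ n, 1 ≤ n ∧ K ≤ f n) ∧
  ∀ M, 1 ≤ M → ∃ c C : ℝ, 0 < c ∧ 0 < C ∧ ∀ᶠ N in atTop, c * f N ≤ f (M * N) ∧ f (M * N) ≤ C * f N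

/-- same growth type -/
def SameGrowth (f g : ℕ → ℝ) : Prop :=
  ∃ c C : ℝ, 0 < c ∧ 0 < C ∧ ∀ᶠ N in atTop, c * g N ≤ f N ∧ f N ≤ C * g N

/-- the growth type of a rate function (its equivalence class) -/
def growthType (f : ℕ → ℝ) : Set (ℕ → ℝ) := {g | IsRate g ∧ SameGrowth f g}

/-- the sequence `p`, with index set `I ⊆ ℤ`, is `f`-distorted -/
def Distorted {X : Type} [MetricSpace X] (I : Set ℤ) (f : ℕ → ℝ) (p : I → X) : Prop :=
  ∃ A B : ℝ, 0 < A ∧ 0 < B ∧ ∃ N₀ : ℕ, 1 ≤ N₀ ∧ ∀ m n : I, N₀ ≤ ((n : ℤ) - m).natAbs →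
    A * f ((n : ℤ) - m).natAbs ≤ dist (p n) (p m) ∧ dist (p n) (p m) ≤ B * f ((n : ℤ) - m).natAbs

/-- `f` is realizable in `X` with index set `I` -/
def Realizable (X : Type) [MetricSpace X] (I : Set ℤ) (f : ℕ → ℝ) : Prop := ∃ p : I → X, Distorted I f p

/-- the sequence distortion spectrum with index set `I` -/
def Spectrum (X : Type) [MetricSpace X] (I : Set ℤ) : Set (Set (ℕ → ℝ)) :=
  {c | ∃ f, IsRate f ∧ Realizable X I f ∧ c = growthType f}

/-- the positive integers -/
def Pos : Set ℤ := {n | 1 ≤ n}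

/-- any two points are joined by an isometric copy of an interval -/
def Geodesic (X : Type) [MetricSpace X] : Prop :=
  ∀ a b : X, ∃ γ : ℝ → X, γ 0 = a ∧ γ (dist a b) = b ∧
    ∀ s ∈ Set.Icc 0 (dist a b), ∀ t ∈ Set.Icc 0 (dist a b), dist (γ s) (γ t) = |s - t|

/-- scales `r_i → ∞` -/
structure Scales where
  /-- the scales -/
  r : ℕ → ℝ
  pos : ∀ i, 0 < r i
  tends : Tendsto r atTop atTop

/-- ultralimit of a sequence of real numbers -/
def ulim (ω : Ultrafilter ℕ) (u : ℕ → ℝ) : ℝ := limUnder (ω : Filter ℕ) u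

theorem tendsto_ulim {ω : Ultrafilter ℕ} {u : ℕ → ℝ} {a b : ℝ} (h : ∀ᶠ i in (ω : Filter ℕ), a ≤ u i ∧ u i ≤ b) :
    Tendsto u ω (𝓝 (ulim ω u)) := by
  have h1 : (ω.map u : Filter ℝ) ≤ 𝓟 (Set.Icc a b) := by
    rw [Ultrafilter.coe_map, le_principal_iff, mem_map]
    exact h
  obtain ⟨x, _, hx⟩ := isCompact_Icc.ultrafilter_le_nhds (ω.map u) h1
  have h2 : Tendsto u ω (𝓝 x) := hx
  unfold ulim
  rw [h2.limUnder_eq]
  exact h2

theorem ulim_eq {ω : Ultrafilter ℕ} {u : ℕ → ℝ} {x : ℝ} (h : Tendsto u ω (𝓝 x)) : ulim ω u = x := h.limUnder_eq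

/-- the sequences at bounded distance from the base point, after scaling -/
def ConeSeq {X : Type} [MetricSpace X] (_ω : Ultrafilter ℕ) (x : ℕ → X) (r : Scales) : Type :=
  {p : ℕ → X // ∃ C : ℝ, ∀ i, dist (p i) (x i) ≤ C * r.r i}

section
variable {X : Type} [MetricSpace X] {ω : Ultrafilter ℕ} {x : ℕ → X} {r : Scales}

theorem cone_bdd (p q : ConeSeq ω x r) : ∃ C : ℝ, ∀ i, 0 ≤ dist (p.1 i) (q.1 i) / r.r i ∧ dist (p.1 i) (q.1 i) / r.r i ≤ C := by
  obtain ⟨C, hC⟩ := p.2
  obtain ⟨D, hD⟩ := q.2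
  refine ⟨C + D, fun i => ⟨div_nonneg dist_nonneg (r.pos i).le, ?_⟩⟩
  rw [div_le_iff₀ (r.pos i)]
  have h1 := dist_triangle_right (p.1 i) (q.1 i) (x i)
  have h2 := hC i
  have h3 := hD i
  linarith

theorem cone_tendsto (p q : ConeSeq ω x r) : Tendsto (fun i => dist (p.1 i) (q.1 i) / r.r i) ω
    (𝓝 (ulim ω (fun i => dist (p.1 i) (q.1 i) / r.r i))) := by
  obtain ⟨C, hC⟩ := cone_bdd p q
  exact tendsto_ulim (Eventually.of_forall hC)

instance instPseudoMetricSpaceConeSeq : PseudoMetricSpace (ConeSeq ω x r) where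
  dist p q := ulim ω (fun i => dist (p.1 i) (q.1 i) / r.r i)
  dist_self p := by
    apply ulim_eq
    simp
  dist_comm p q := by
    simp only [dist_comm]
  dist_triangle p q s := by
    refine le_of_tendsto_of_tendsto' (cone_tendsto p s) ((cone_tendsto p q).add (cone_tendsto q s)) fun i => ?_
    rw [← add_div]
    exact div_le_div_of_nonneg_right (dist_triangle _ _ _) (r.pos i).le

theorem cone_dist (p q : ConeSeq ω x r) : dist p q = ulim ω (fun i => dist (p.1 i) (q.1 i) / r.r i) := rfl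

end

/-- the asymptotic cone: the `ω`-ultralimit of the pointed spaces `(X, d / r_i, x_i)` -/
abbrev Cone {X : Type} [MetricSpace X] (ω : Ultrafilter ℕ) (x : ℕ → X) (r : Scales) : Type :=
  SeparationQuotient (ConeSeq ω x r)

/-- bi-Lipschitz equivalent -/
def BiLip (A B : Type) [MetricSpace A] [MetricSpace B] : Prop :=
  ∃ (e : A ≃ B) (L : ℝ), 0 < L ∧ ∀ a b, dist (e a) (e b) ≤ L * dist a b ∧ dist a b ≤ L * dist (e a) (e b)

/-! ### the tree of balls of an ultrametric group -/

/-- the distance of the balls with centres at distance `n` and radii `exp h`, `exp h'` -/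
def dT (n h h' : ℝ) : ℝ := 2 * Real.log (max n (max (Real.exp h) (Real.exp h'))) - h - h'

/-- balls: centre and logarithm of the radius -/
structure TreeP (K : Type) where
  /-- the centre -/
  c : K
  /-- the logarithm of the radius -/
  h : ℝ

theorem dT_comm (n h h' : ℝ) : dT n h h' = dT n h' h := by
  unfold dT
  rw [max_comm (Real.exp h)]
  ring

theorem dT_tri {a b c h h' h'' : ℝ} (hc : c ≤ max a b) : dT c h h'' ≤ dT a h h' + dT b h' h'' := by
  unfold dT
  have p1 := Real.exp_pos h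
  have p2 := Real.exp_pos h'
  have p3 := Real.exp_pos h''
  have q1 : 0 < max a (max (Real.exp h) (Real.exp h')) := lt_max_of_lt_right (lt_max_of_lt_left p1)
  have q2 : 0 < max b (max (Real.exp h') (Real.exp h'')) := lt_max_of_lt_right (lt_max_of_lt_left p2)
  have q3 : 0 < max c (max (Real.exp h) (Real.exp h'')) := lt_max_of_lt_right (lt_max_of_lt_left p1)
  have e1 : h' ≤ Real.log (max a (max (Real.exp h) (Real.exp h'))) := by
    rw [Real.le_log_iff_exp_le q1]
    exact le_max_of_le_right (le_max_right _ _)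
  have e2 : h' ≤ Real.log (max b (max (Real.exp h') (Real.exp h''))) := by
    rw [Real.le_log_iff_exp_le q2]
    exact le_max_of_le_right (le_max_left _ _)
  have e3 : max c (max (Real.exp h) (Real.exp h'')) ≤
      max (max a (max (Real.exp h) (Real.exp h'))) (max b (max (Real.exp h') (Real.exp h''))) := by
    refine max_le (hc.trans (max_le_max (le_max_left _ _) (le_max_left _ _))) (max_le ?_ ?_)
    · exact le_max_of_le_left (le_max_of_le_right (le_max_left _ _))
    · exact le_max_of_le_right (le_max_of_le_right (le_max_right _ _))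
  rcases le_total (max a (max (Real.exp h) (Real.exp h'))) (max b (max (Real.exp h') (Real.exp h''))) with g | g
  · rw [max_eq_right g] at e3
    have := Real.log_le_log q3 e3
    linarith
  · rw [max_eq_left g] at e3
    have := Real.log_le_log q3 e3
    linarith

instance instPseudoMetricSpaceTreeP (K : Type) [SeminormedAddCommGroup K] [IsUltrametricDist K] : PseudoMetricSpace (TreeP K) where
  dist p q := dT ‖p.c - q.c‖ p.h q.h
  dist_self p := by
    unfold dT
    rw [sub_self, norm_zero, max_self, max_eq_right (Real.exp_pos _).le, Real.log_exp]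
    ring
  dist_comm p q := by
    rw [norm_sub_rev, dT_comm]
  dist_triangle p q s := by
    apply dT_tri
    have := IsUltrametricDist.norm_add_le_max (p.c - q.c) (q.c - s.c)
    rwa [sub_add_sub_cancel] at this

theorem treeP_dist {K : Type} [SeminormedAddCommGroup K] [IsUltrametricDist K] (p q : TreeP K) :
    dist p q = dT ‖p.c - q.c‖ p.h q.h := rfl

/-- the tree of balls -/
abbrev Tree (K : Type) [SeminormedAddCommGroup K] [IsUltrametricDist K] : Type := SeparationQuotient (TreeP K)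

/-- the point of the tree given by a ball -/
def Tree.pt {K : Type} [SeminormedAddCommGroup K] [IsUltrametricDist K] (x : K) (h : ℝ) : Tree K :=
  SeparationQuotient.mk (TreeP.mk x h)

theorem Tree.dist_pt {K : Type} [SeminormedAddCommGroup K] [IsUltrametricDist K] (x x' : K) (h h' : ℝ) :
    dist (Tree.pt x h) (Tree.pt x' h') = dT ‖x - x'‖ h h' := rfl

/-- the four point condition -/
def FourPoint (X : Type) [MetricSpace X] : Prop :=
  ∀ a b c e : X, dist a c + dist b e ≤ max (dist a b + dist c e) (dist a e + dist b c)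

/-! ### sequences of exponential size -/

/-- the `ℚ`-space of the sequences `u` in `K` with `‖u i‖ exp (-β i) ≤ C exp (D r_i)` -/
def Vs (K : Type) [NormedField K] [CharZero K] (β : ℕ → ℝ) (r : Scales) : Submodule ℚ (ℕ → K) where
  carrier := {u | ∃ C D : ℝ, ∀ i, ‖u i‖ * Real.exp (-β i) ≤ C * Real.exp (D * r.r i)}
  zero_mem' := ⟨0, 0, fun i => by simp⟩
  add_mem' := by
    rintro u v ⟨C, D, h⟩ ⟨C', D', h'⟩
    refine ⟨|C| + |C'|, max D D', fun i => ?_⟩
    have e1 := h i
    have e2 := h' i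
    have e3 : Real.exp (D * r.r i) ≤ Real.exp (max D D' * r.r i) :=
      Real.exp_le_exp.2 (mul_le_mul_of_nonneg_right (le_max_left _ _) (r.pos i).le)
    have e4 : Real.exp (D' * r.r i) ≤ Real.exp (max D D' * r.r i) :=
      Real.exp_le_exp.2 (mul_le_mul_of_nonneg_right (le_max_right _ _) (r.pos i).le)
    have e5 : C * Real.exp (D * r.r i) ≤ |C| * Real.exp (max D D' * r.r i) :=
      mul_le_mul (le_abs_self _) e3 (Real.exp_pos _).le (abs_nonneg _)
    have e6 : C' * Real.exp (D' * r.r i) ≤ |C'| * Real.exp (max D D' * r.r i) :=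
      mul_le_mul (le_abs_self _) e4 (Real.exp_pos _).le (abs_nonneg _)
    have e7 : ‖(u + v) i‖ * Real.exp (-β i) ≤ (‖u i‖ + ‖v i‖) * Real.exp (-β i) :=
      mul_le_mul_of_nonneg_right (norm_add_le _ _) (Real.exp_pos _).le
    linarith
  smul_mem' := by
    rintro c u ⟨C, D, h⟩
    refine ⟨‖(c : K)‖ * C, D, fun i => ?_⟩
    have e1 : ‖(c • u) i‖ = ‖(c : K)‖ * ‖u i‖ := by
      rw [Pi.smul_apply, Rat.smul_def, norm_mul]
    rw [e1, mul_assoc, mul_assoc]
    exact mul_le_mul_of_nonneg_left (h i) (norm_nonneg _)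

/-- the ultrametric norm -/
def nu {K : Type} [NormedField K] [CharZero K] (ω : Ultrafilter ℕ) {β : ℕ → ℝ} {r : Scales} (u : Vs K β r) : ℝ :=
  ulim ω (fun i => (‖u.1 i‖ * Real.exp (-β i)) ^ (1 / r.r i))

/-- the properties of the ultrametric `ℚ`-spaces: ultrametric, spherically complete, all residue spaces of dimension continuum -/
structure USpace (V : Type) [AddCommGroup V] [Module ℚ V] (ν : V → ℝ) : Prop where
  nonneg : ∀ x, 0 ≤ ν x
  zero : ν 0 = 0
  add : ∀ x y, ν (x + y) ≤ max (ν x) (ν y)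
  smul : ∀ (c : ℚ) (x : V), c ≠ 0 → ν (c • x) = ν x
  sph : ∀ (ι : Type) (a : ι → V) (ρ : ι → ℝ), (∀ s t, ν (a s - a t) ≤ max (ρ s) (ρ t)) → ∃ x, ∀ s, ν (x - a s) ≤ ρ s
  res : ∀ ρ : ℝ, 0 < ρ → ∃ S : Submodule ℚ V, Module.rank ℚ S = Cardinal.continuum ∧ (∀ s ∈ S, s ≠ 0 → ν s = ρ) ∧
    ∀ x, ν x ≤ ρ → ∃ s ∈ S, ν (x - s) < ρ

/-- what is needed of the field -/
def Good (K : Type) [NormedField K] : Prop :=
  (∀ j : ℤ, j ≠ 0 → 1 ≤ ‖(j : K)‖ * |(j : ℝ)|) ∧ (∀ s : ℝ, 0 < s → ∃ t : K, s ≤ ‖t‖ ∧ ‖t‖ ≤ 2 * s) ∧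
    Cardinal.mk K ≤ Cardinal.continuum

theorem scales_lower (r : Scales) : ∃ c : ℝ, 0 < c ∧ ∀ i, c ≤ r.r i := by
  obtain ⟨N, hN⟩ := (r.tends.eventually_ge_atTop 1).exists_forall_of_atTop
  obtain ⟨c, hc0, hc⟩ : ∃ c : ℝ, 0 < c ∧ ∀ i < N, c ≤ r.r i := by
    clear hN
    induction N with
    | zero => exact ⟨1, one_pos, fun i hi => absurd hi (Nat.not_lt_zero i)⟩
    | succ N ih =>
      obtain ⟨c, hc0, hc⟩ := ih
      refine ⟨min c (r.r N), lt_min hc0 (r.pos N), fun i hi => ?_⟩
      rcases Nat.lt_succ_iff_lt_or_eq.1 hi with h | h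
      · exact (min_le_left _ _).trans (hc i h)
      · rw [h]
        exact min_le_right _ _
  refine ⟨min c 1, lt_min hc0 one_pos, fun i => ?_⟩
  rcases lt_or_ge i N with h | h
  · exact (min_le_left _ _).trans (hc i h)
  · exact (min_le_right _ _).trans (hN i h)

theorem nu_tendsto {K : Type} [NormedField K] [CharZero K] {ω : Ultrafilter ℕ} (hω : (ω : Filter ℕ) ≤ atTop) {β : ℕ → ℝ} {r : Scales}
    (u : Vs K β r) : Tendsto (fun i => (‖u.1 i‖ * Real.exp (-β i)) ^ (1 / r.r i)) ω (𝓝 (nu ω u)) := by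
  obtain ⟨C, D, h⟩ := u.2
  have h1 : ∀ᶠ i in (ω : Filter ℕ), 1 ≤ r.r i := hω (r.tends.eventually_ge_atTop 1)
  refine tendsto_ulim (a := 0) (b := max C 1 * Real.exp D) (h1.mono fun i hi => ⟨by positivity, ?_⟩)
  have h2 : ‖u.1 i‖ * Real.exp (-β i) ≤ max C 1 * Real.exp (D * r.r i) :=
    (h i).trans (mul_le_mul_of_nonneg_right (le_max_left _ _) (Real.exp_pos _).le)
  have h3 : (1 : ℝ) ≤ max C 1 := le_max_right _ _
  have hr := r.pos i
  calc (‖u.1 i‖ * Real.exp (-β i)) ^ (1 / r.r i) ≤ (max C 1 * Real.exp (D * r.r i)) ^ (1 / r.r i) :=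
        Real.rpow_le_rpow (by positivity) h2 (by positivity)
    _ = max C 1 ^ (1 / r.r i) * Real.exp D := by
        rw [Real.mul_rpow (by positivity) (Real.exp_pos _).le, ← Real.exp_mul, mul_one_div, mul_div_assoc, div_self hr.ne', mul_one]
    _ ≤ max C 1 * Real.exp D := by
        refine mul_le_mul_of_nonneg_right ?_ (Real.exp_pos _).le
        calc max C 1 ^ (1 / r.r i) ≤ max C 1 ^ (1 : ℝ) :=
              Real.rpow_le_rpow_of_exponent_le h3 (by rw [div_le_one hr]; exact hi)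
          _ = max C 1 := Real.rpow_one _

theorem le_atTop_of_ne {ω : Ultrafilter ℕ} (h : ∀ n, ω ≠ pure n) : (ω : Filter ℕ) ≤ atTop := by
  rw [← Nat.cofinite_eq_atTop]
  rcases ω.le_cofinite_or_eq_pure with h1 | ⟨n, hn⟩
  · exact h1
  · exact absurd hn (h n)

end

end Pool.Agent.Q177.AC
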