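import Pool.Agent.Q177.AC.Stm

set_option autoImplicit false

/-!
Project AC (helper177), job CON: the asymptotic cones in horospherical coordinates.
-/

namespace Pool.Agent.Q177.AC

open Filter Topology

noncomputable section

theorem max_pos' (n h h' : ℝ) : 0 < max n (max (Real.exp h) (Real.exp h')) :=
  lt_max_of_lt_right (lt_max_of_lt_left (Real.exp_pos _))

theorem dT_max (n h h' : ℝ) : max n (max (Real.exp h) (Real.exp h')) = Real.exp ((dT n h h' + h + h') / 2) := by
  have e : (dT n h h' + h + h') / 2 = Real.log (max n (max (Real.exp h) (Real.exp h'))) := by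
    unfold dT
    ring
  rw [e, Real.exp_log (max_pos' n h h')]

theorem abs_le_dT (n h h' : ℝ) : |h - h'| ≤ dT n h h' := by
  have h1 : Real.exp h ≤ Real.exp ((dT n h h' + h + h') / 2) := by
    rw [← dT_max]
    exact le_max_of_le_right (le_max_left _ _)
  have h2 : Real.exp h' ≤ Real.exp ((dT n h h' + h + h') / 2) := by
    rw [← dT_max]
    exact le_max_of_le_right (le_max_right _ _)
  rw [Real.exp_le_exp] at h1 h2
  rw [abs_le]
  constructor <;> linarith

theorem le_dT (n h h' : ℝ) : n ≤ Real.exp ((dT n h h' + h + h') / 2) := by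
  rw [← dT_max]
  exact le_max_left _ _

theorem dT_div {r : ℝ} (hr : 0 < r) {n : ℝ} (hn : 0 ≤ n) (h h' β : ℝ) :
    dT n h h' / r = dT ((n * Real.exp (-β)) ^ (1 / r)) ((h - β) / r) ((h' - β) / r) := by
  have hr' : 0 < 1 / r := by positivity
  have e1 : ∀ h : ℝ, Real.exp ((h - β) / r) = (Real.exp h * Real.exp (-β)) ^ (1 / r) := by
    intro h
    rw [← Real.exp_add, ← Real.exp_mul]
    congr 1
    ring
  have hmono : ∀ a b : ℝ, 0 ≤ a → 0 ≤ b → max (a ^ (1 / r)) (b ^ (1 / r)) = (max a b) ^ (1 / r) := by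
    intro a b ha hb
    rcases le_total a b with h | h
    · rw [max_eq_right h, max_eq_right (Real.rpow_le_rpow ha h hr'.le)]
    · rw [max_eq_left h, max_eq_left (Real.rpow_le_rpow hb h hr'.le)]
  have e2 : max ((n * Real.exp (-β)) ^ (1 / r)) (max (Real.exp ((h - β) / r)) (Real.exp ((h' - β) / r))) =
      (max n (max (Real.exp h) (Real.exp h')) * Real.exp (-β)) ^ (1 / r) := by
    rw [e1, e1, hmono _ _ (by positivity) (by positivity), hmono _ _ (by positivity) (by positivity)]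
    rw [max_mul_of_nonneg _ _ (Real.exp_pos _).le, max_mul_of_nonneg _ _ (Real.exp_pos _).le]
  unfold dT
  rw [e2, Real.log_rpow (mul_pos (max_pos' n h h') (Real.exp_pos _)), Real.log_mul (max_pos' n h h').ne' (Real.exp_pos _).ne', Real.log_exp]
  field_simp
  ring

theorem dT_tendsto {ω : Ultrafilter ℕ} {n h h' : ℕ → ℝ} {n₀ h₀ h₀' : ℝ} (h1 : Tendsto n ω (𝓝 n₀)) (h2 : Tendsto h ω (𝓝 h₀))
    (h3 : Tendsto h' ω (𝓝 h₀')) : Tendsto (fun i => dT (n i) (h i) (h' i)) ω (𝓝 (dT n₀ h₀ h₀')) := by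
  unfold dT
  have e2 : Tendsto (fun i => Real.exp (h i)) ω (𝓝 (Real.exp h₀)) := (Real.continuous_exp.tendsto _).comp h2
  have e3 : Tendsto (fun i => Real.exp (h' i)) ω (𝓝 (Real.exp h₀')) := (Real.continuous_exp.tendsto _).comp h3
  have e4 := (h1.max (e2.max e3)).log (max_pos' n₀ h₀ h₀').ne'
  exact ((e4.const_mul 2).sub h2).sub h3

theorem div_tendsto {ω : Ultrafilter ℕ} (hω : (ω : Filter ℕ) ≤ atTop) (r : Scales) (C : ℝ) : Tendsto (fun i => C / r.r i) ω (𝓝 0) :=
  ((tendsto_const_nhds (x := C) (f := atTop)).div_atTop r.tends).mono_left hω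

theorem t_CON : S_CON := by
  intro K _ _ X _ π C hsurj hπ ω hω r b
  have hC0 : 0 ≤ C := (abs_nonneg _).trans (hπ 0 0 0 0)
  obtain ⟨c, hc0, hc⟩ := scales_lower r
  choose κ η hκη using hsurj
  have hd : ∀ p q : X, |dist p q - dT ‖κ p - κ q‖ (η p) (η q)| ≤ C := by
    intro p q
    have := hπ (κ p) (η p) (κ q) (η q)
    rwa [hκη, hκη] at this
  have habs : ∀ A : ℝ, ∀ i, A ≤ |A| / c * r.r i := by
    intro A i
    rw [div_mul_eq_mul_div, le_div_iff₀ hc0]
    exact (mul_le_mul_of_nonneg_right (le_abs_self A) hc0.le).trans (mul_le_mul_of_nonneg_left (hc i) (abs_nonneg A))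
  obtain ⟨β, hβ⟩ : ∃ β : ℕ → ℝ, β = fun i => η (b i) := ⟨_, rfl⟩
  obtain ⟨ξ, hξ⟩ : ∃ ξ : ℕ → K, ξ = fun i => κ (b i) := ⟨_, rfl⟩
  -- bounds for a sequence of the cone
  have hbd : ∀ p : ConeSeq ω b r, ∃ C₂ : ℝ, ∀ i, |η (p.1 i) - β i| ≤ C₂ * r.r i ∧ ‖κ (p.1 i) - ξ i‖ * Real.exp (-β i) ≤ Real.exp (C₂ * r.r i) := by
    intro p
    obtain ⟨C₁, hC₁⟩ := p.2
    refine ⟨C₁ + |C| / c, fun i => ?_⟩
    have h1 := hC₁ i
    have h2 := (abs_le.1 (hd (p.1 i) (b i))).1
    have h3 := habs C i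
    have h4 : dT ‖κ (p.1 i) - κ (b i)‖ (η (p.1 i)) (η (b i)) ≤ (C₁ + |C| / c) * r.r i := by linarith
    have h5 := (abs_le_dT ‖κ (p.1 i) - κ (b i)‖ (η (p.1 i)) (η (b i))).trans h4
    rw [hβ, hξ]
    refine ⟨h5, ?_⟩
    have h6 := le_dT ‖κ (p.1 i) - κ (b i)‖ (η (p.1 i)) (η (b i))
    have h7 := (abs_le.1 h5).2
    calc ‖κ (p.1 i) - κ (b i)‖ * Real.exp (-η (b i)) ≤
        Real.exp ((dT ‖κ (p.1 i) - κ (b i)‖ (η (p.1 i)) (η (b i)) + η (p.1 i) + η (b i)) / 2) * Real.exp (-η (b i)) :=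
          mul_le_mul_of_nonneg_right h6 (Real.exp_pos _).le
      _ = Real.exp ((dT ‖κ (p.1 i) - κ (b i)‖ (η (p.1 i)) (η (b i)) + η (p.1 i) + η (b i)) / 2 + -η (b i)) := by rw [← Real.exp_add]
      _ ≤ Real.exp ((C₁ + |C| / c) * r.r i) := by
          apply Real.exp_le_exp.2
          linarith
  have hmem : ∀ p : ConeSeq ω b r, (fun i => κ (p.1 i) - ξ i) ∈ Vs K β r := by
    intro p
    obtain ⟨C₂, hC₂⟩ := hbd p
    exact ⟨1, C₂, fun i => by rw [one_mul]; exact (hC₂ i).2⟩
  have hlim : ∀ p : ConeSeq ω b r, Tendsto (fun i => (η (p.1 i) - β i) / r.r i) ω (𝓝 (ulim ω (fun i => (η (p.1 i) - β i) / r.r i))) := by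
    intro p
    obtain ⟨C₂, hC₂⟩ := hbd p
    refine tendsto_ulim (a := -C₂) (b := C₂) (Eventually.of_forall fun i => ?_)
    have hr := r.pos i
    have h1 := abs_le.1 (hC₂ i).1
    constructor
    · rw [le_div_iff₀ hr]
      linarith
    · rw [div_le_iff₀ hr]
      exact h1.2
  refine ⟨β, fun p => (⟨_, hmem p⟩, ulim ω (fun i => (η (p.1 i) - β i) / r.r i)), ?_, ?_⟩
  · intro p q
    simp only
    rw [cone_dist]
    apply ulim_eq
    have h1 := dT_tendsto (nu_tendsto hω ((⟨_, hmem p⟩ : Vs K β r) - ⟨_, hmem q⟩)) (hlim p) (hlim q)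
    have h2 : Tendsto (fun i => dist (p.1 i) (q.1 i) / r.r i - dT ((‖((⟨_, hmem p⟩ : Vs K β r) - ⟨_, hmem q⟩ : Vs K β r).1 i‖ * Real.exp (-β i)) ^ (1 / r.r i))
        ((η (p.1 i) - β i) / r.r i) ((η (q.1 i) - β i) / r.r i)) ω (𝓝 0) := by
      refine squeeze_zero_norm (fun i => ?_) (div_tendsto hω r C)
      have e1 : ((⟨_, hmem p⟩ : Vs K β r) - ⟨_, hmem q⟩ : Vs K β r).1 i = κ (p.1 i) - κ (q.1 i) := by
        show (κ (p.1 i) - ξ i) - (κ (q.1 i) - ξ i) = _
        abel
      rw [e1, ← dT_div (r.pos i) (norm_nonneg _), ← sub_div, Real.norm_eq_abs, abs_div, abs_of_pos (r.pos i)]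
      exact div_le_div_of_nonneg_right (hd _ _) (r.pos i).le
    have h3 := h2.add h1
    rw [zero_add] at h3
    refine h3.congr fun i => ?_
    ring
  · intro v h
    obtain ⟨A, D, hAD⟩ := v.2
    have hb : ∀ i, π (ξ i) (β i) = b i := fun i => by rw [hξ, hβ]; exact hκη (b i)
    have hP : ∃ C₃ : ℝ, ∀ i, dist (π (ξ i + v.1 i) (β i + h * r.r i)) (b i) ≤ C₃ * r.r i := by
      refine ⟨|C| / c + |2 * Real.log (max A 1)| / c + 2 * max D |h| + |h|, fun i => ?_⟩
      have hr := r.pos i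
      have h1 := (abs_le.1 (hπ (ξ i + v.1 i) (β i + h * r.r i) (ξ i) (β i))).2
      rw [hb, add_sub_cancel_left] at h1
      have h2 := habs C i
      have h3 := habs (2 * Real.log (max A 1)) i
      have hA1 : (0 : ℝ) < max A 1 := lt_of_lt_of_le one_pos (le_max_right _ _)
      have hD0 : 0 ≤ max D |h| := (abs_nonneg h).trans (le_max_right _ _)
      have hone : 1 ≤ max A 1 * Real.exp (max D |h| * r.r i) := by
        have a1 : (1 : ℝ) ≤ max A 1 := le_max_right _ _
        have a2 : (1 : ℝ) ≤ Real.exp (max D |h| * r.r i) := Real.one_le_exp (by positivity)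
        nlinarith
      have h4 : max ‖v.1 i‖ (max (Real.exp (β i + h * r.r i)) (Real.exp (β i))) ≤ max A 1 * Real.exp (max D |h| * r.r i) * Real.exp (β i) := by
        refine max_le ?_ (max_le ?_ ?_)
        · have a1 := hAD i
          have a2 : A * Real.exp (D * r.r i) ≤ max A 1 * Real.exp (max D |h| * r.r i) := by
            refine (mul_le_mul_of_nonneg_right (le_max_left A 1) (Real.exp_pos _).le).trans (mul_le_mul_of_nonneg_left ?_ hA1.le)
            exact Real.exp_le_exp.2 (mul_le_mul_of_nonneg_right (le_max_left _ _) hr.le)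
          have a3 := mul_le_mul_of_nonneg_right (a1.trans a2) (Real.exp_pos (β i)).le
          have a4 : ‖v.1 i‖ * Real.exp (-β i) * Real.exp (β i) = ‖v.1 i‖ := by
            rw [mul_assoc, ← Real.exp_add]
            simp
          rwa [a4] at a3
        · rw [add_comm (β i), Real.exp_add]
          refine mul_le_mul_of_nonneg_right ?_ (Real.exp_pos _).le
          have a1 : Real.exp (h * r.r i) ≤ Real.exp (max D |h| * r.r i) :=
            Real.exp_le_exp.2 (mul_le_mul_of_nonneg_right ((le_abs_self h).trans (le_max_right _ _)) hr.le)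
          have a2 : (1 : ℝ) ≤ max A 1 := le_max_right _ _
          have a3 := Real.exp_pos (max D |h| * r.r i)
          nlinarith
        · have a3 := Real.exp_pos (β i)
          nlinarith
      have h5 := Real.log_le_log (max_pos' _ _ _) h4
      rw [Real.log_mul (by positivity) (Real.exp_pos _).ne', Real.log_mul hA1.ne' (Real.exp_pos _).ne', Real.log_exp, Real.log_exp] at h5
      have h6 : dT ‖v.1 i‖ (β i + h * r.r i) (β i) ≤ 2 * (Real.log (max A 1) + max D |h| * r.r i + β i) - (β i + h * r.r i) - β i := by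
        unfold dT
        linarith
      have h7 : -(h * r.r i) ≤ |h| * r.r i := by
        rw [← neg_mul]
        exact mul_le_mul_of_nonneg_right (neg_le_abs h) hr.le
      have e1 : (|C| / c + |2 * Real.log (max A 1)| / c + 2 * max D |h| + |h|) * r.r i =
          |C| / c * r.r i + |2 * Real.log (max A 1)| / c * r.r i + 2 * (max D |h| * r.r i) + |h| * r.r i := by ring
      rw [e1]
      linarith
    obtain ⟨P, hP'⟩ : ∃ P : ConeSeq ω b r, ∀ i, P.1 i = π (ξ i + v.1 i) (β i + h * r.r i) := ⟨⟨_, hP⟩, fun i => rfl⟩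
    have hdT : ∀ i, dT ‖κ (P.1 i) - (ξ i + v.1 i)‖ (η (P.1 i)) (β i + h * r.r i) ≤ C := by
      intro i
      have h1 := (abs_le.1 (hπ (κ (P.1 i)) (η (P.1 i)) (ξ i + v.1 i) (β i + h * r.r i))).1
      rw [hκη, ← hP', dist_self] at h1
      linarith
    have hη : ∀ i, |η (P.1 i) - (β i + h * r.r i)| ≤ C := fun i => (abs_le_dT _ _ _).trans (hdT i)
    refine ⟨P, ?_, ?_⟩
    · simp only
      have h1 := nu_tendsto hω ((⟨_, hmem P⟩ : Vs K β r) - v)
      have h2 : Tendsto (fun i => Real.exp (C / r.r i + h)) ω (𝓝 (Real.exp h)) := by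
        have h3 := (div_tendsto hω r C).add_const h
        rw [zero_add] at h3
        exact (Real.continuous_exp.tendsto _).comp h3
      refine le_of_tendsto_of_tendsto' h1 h2 fun i => ?_
      have hr := r.pos i
      have e1 : ((⟨_, hmem P⟩ : Vs K β r) - v : Vs K β r).1 i = κ (P.1 i) - (ξ i + v.1 i) := by
        show (κ (P.1 i) - ξ i) - v.1 i = _
        abel
      rw [e1]
      have h4 := le_dT ‖κ (P.1 i) - (ξ i + v.1 i)‖ (η (P.1 i)) (β i + h * r.r i)
      have h5 := hdT i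
      have h6 := (abs_le.1 (hη i)).2
      have h7 : ‖κ (P.1 i) - (ξ i + v.1 i)‖ * Real.exp (-β i) ≤ Real.exp (C + h * r.r i) := by
        calc ‖κ (P.1 i) - (ξ i + v.1 i)‖ * Real.exp (-β i) ≤
            Real.exp ((dT ‖κ (P.1 i) - (ξ i + v.1 i)‖ (η (P.1 i)) (β i + h * r.r i) + η (P.1 i) + (β i + h * r.r i)) / 2) * Real.exp (-β i) :=
              mul_le_mul_of_nonneg_right h4 (Real.exp_pos _).le
          _ = Real.exp ((dT ‖κ (P.1 i) - (ξ i + v.1 i)‖ (η (P.1 i)) (β i + h * r.r i) + η (P.1 i) + (β i + h * r.r i)) / 2 + -β i) := by rw [← Real.exp_add]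
          _ ≤ Real.exp (C + h * r.r i) := by
              apply Real.exp_le_exp.2
              linarith
      refine (Real.rpow_le_rpow (by positivity) h7 (by positivity)).trans (le_of_eq ?_)
      rw [← Real.exp_mul]
      congr 1
      field_simp
    · simp only
      apply ulim_eq
      have h2 : Tendsto (fun i => (η (P.1 i) - β i) / r.r i - h) ω (𝓝 0) := by
        refine squeeze_zero_norm (fun i => ?_) (div_tendsto hω r C)
        have hr := r.pos i
        have e1 : (η (P.1 i) - β i) / r.r i - h = (η (P.1 i) - (β i + h * r.r i)) / r.r i := by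
          field_simp
          ring
        rw [e1, Real.norm_eq_abs, abs_div, abs_of_pos hr]
        exact div_le_div_of_nonneg_right (hη i) hr.le
      have h3 := h2.add_const h
      rw [zero_add] at h3
      refine h3.congr fun i => ?_
      ring

end

end Pool.Agent.Q177.AC
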