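import Pool.Agent.Q177.AC.Stm

set_option autoImplicit false

/-!
Project AC (helper177), job HAHN: spherically complete ultrametric rational vector spaces with residue spaces of dimension continuum are isometric.
-/

namespace Pool.Agent.Q177.AC

open Filter Topology

noncomputable section

section
variable {V : Type} [AddCommGroup V] [Module ℚ V] {ν : V → ℝ}

theorem us_neg (h : USpace V ν) (x : V) : ν (-x) = ν x := by
  have := h.smul (-1) x (by norm_num)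
  rwa [neg_one_smul] at this

theorem us_lt (h : USpace V ν) {x y : V} {ρ : ℝ} (hx : ν x < ρ) (hy : ν y < ρ) : ν (x + y) < ρ :=
  (h.add x y).trans_lt (max_lt hx hy)

theorem us_lt' (h : USpace V ν) {x y : V} {ρ : ℝ} (hx : ν x < ρ) (hy : ν y < ρ) : ν (x - y) < ρ := by
  rw [sub_eq_add_neg]
  exact us_lt h hx (by rwa [us_neg h])

theorem us_le (h : USpace V ν) {x y : V} {ρ : ℝ} (hx : ν x ≤ ρ) (hy : ν y ≤ ρ) : ν (x + y) ≤ ρ :=
  (h.add x y).trans (max_le hx hy)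

theorem us_le' (h : USpace V ν) {x y : V} {ρ : ℝ} (hx : ν x ≤ ρ) (hy : ν y ≤ ρ) : ν (x - y) ≤ ρ := by
  rw [sub_eq_add_neg]
  exact us_le h hx (by rwa [us_neg h])

theorem us_comm (h : USpace V ν) (x y : V) : ν (x - y) = ν (y - x) := by
  rw [← us_neg h, neg_sub]

theorem us_eq (h : USpace V ν) {x s : V} {ρ : ℝ} (h1 : ν (x - s) < ρ) (h2 : ν s = ρ) : ν x = ρ := by
  refine le_antisymm ?_ ?_
  · have := us_le h h1.le h2.le
    rwa [sub_add_cancel] at this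
  · by_contra hc
    push Not at hc
    have := us_lt' h hc h1
    rw [sub_sub_cancel, h2] at this
    exact lt_irrefl _ this

end

/-- positive radii -/
abbrev PR : Type := {ρ : ℝ // 0 < ρ}

/-- the identification of the residue spaces -/
structure Skel (V W : Type) [AddCommGroup V] [Module ℚ V] [AddCommGroup W] [Module ℚ W] (ν : V → ℝ) (μ : W → ℝ) where
  /-- residue spaces of the first space -/
  S : PR → Submodule ℚ V
  /-- residue spaces of the second space -/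
  T : PR → Submodule ℚ W
  /-- the isomorphisms -/
  e : ∀ ρ, S ρ ≃ₗ[ℚ] T ρ
  hS : ∀ ρ : PR, ∀ s ∈ S ρ, s ≠ 0 → ν s = ρ
  hS' : ∀ ρ : PR, ∀ x, ν x ≤ ρ → ∃ s ∈ S ρ, ν (x - s) < ρ
  hT : ∀ ρ : PR, ∀ s ∈ T ρ, s ≠ 0 → μ s = ρ
  hT' : ∀ ρ : PR, ∀ x, μ x ≤ ρ → ∃ s ∈ T ρ, μ (x - s) < ρ

section
variable {V W : Type} [AddCommGroup V] [Module ℚ V] [AddCommGroup W] [Module ℚ W] {ν : V → ℝ} {μ : W → ℝ}

theorem exists_skel (h : USpace V ν) (h' : USpace W μ) : Nonempty (Skel V W ν μ) := by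
  have key : ∀ ρ : PR, ∃ (S : Submodule ℚ V) (T : Submodule ℚ W) (_ : S ≃ₗ[ℚ] T), (∀ s ∈ S, s ≠ 0 → ν s = ρ) ∧
      (∀ x, ν x ≤ ρ → ∃ s ∈ S, ν (x - s) < ρ) ∧ (∀ s ∈ T, s ≠ 0 → μ s = ρ) ∧ (∀ x, μ x ≤ ρ → ∃ s ∈ T, μ (x - s) < ρ) := by
    intro ρ
    obtain ⟨S, a1, a2, a3⟩ := h.res ρ.1 ρ.2
    obtain ⟨T, b1, b2, b3⟩ := h'.res ρ.1 ρ.2
    obtain ⟨e⟩ := nonempty_linearEquiv_of_rank_eq (a1.trans b1.symm)
    exact ⟨S, T, e, a2, a3, b2, b3⟩
  choose S T e h1 h2 h3 h4 using key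
  exact ⟨⟨S, T, e, h1, h2, h3, h4⟩⟩

/-- compatible partial maps -/
def Compat (K : Skel V W ν μ) (φ : V →ₗ.[ℚ] W) : Prop :=
  ∀ (ρ : PR) (x : φ.domain) (s : K.S ρ), ν ((x : V) - s) < ρ → μ (φ x - (K.e ρ s : W)) < ρ

theorem compat_norm (h : USpace V ν) (h' : USpace W μ) (K : Skel V W ν μ) {φ : V →ₗ.[ℚ] W} (hφ : Compat K φ) (x : φ.domain) :
    μ (φ x) = ν x := by
  rcases (h.nonneg (x : V)).lt_or_eq with h0 | h0
  · obtain ⟨s, hs, hs'⟩ := K.hS' ⟨_, h0⟩ x le_rfl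
    have h1 := hφ ⟨_, h0⟩ x ⟨s, hs⟩ hs'
    have hs0 : s ≠ 0 := by
      rintro rfl
      rw [sub_zero] at hs'
      exact lt_irrefl _ hs'
    refine us_eq h' h1 (K.hT ⟨_, h0⟩ _ (K.e _ ⟨s, hs⟩).2 fun h2 => hs0 ?_)
    have h3 : K.e ⟨_, h0⟩ ⟨s, hs⟩ = 0 := Subtype.ext h2
    have h4 := (LinearEquiv.map_eq_zero_iff _).1 h3
    exact congrArg Subtype.val h4
  · rw [← h0]
    refine le_antisymm ?_ (h'.nonneg _)
    by_contra hc
    push Not at hc
    have h1 := hφ ⟨_, hc⟩ x 0 (by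
      rw [Submodule.coe_zero, sub_zero, ← h0]
      exact hc)
    rw [map_zero, Submodule.coe_zero, sub_zero] at h1
    exact lt_irrefl _ h1

theorem compat_bot (h : USpace V ν) (h' : USpace W μ) (K : Skel V W ν μ) : Compat K (⊥ : V →ₗ.[ℚ] W) := by
  intro ρ x s hs
  have hx : (x : V) = 0 := by
    have hm : (x : V) ∈ (⊥ : Submodule ℚ V) := x.2
    exact (Submodule.mem_bot ℚ).1 hm
  have hx' : x = 0 := Subtype.ext hx
  have hs0 : (s : V) = 0 := by
    by_contra hc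
    have h1 := K.hS ρ s s.2 hc
    rw [hx, zero_sub, us_neg h, h1] at hs
    exact lt_irrefl _ hs
  have hs1 : s = 0 := Subtype.ext hs0
  rw [hx', hs1, LinearPMap.map_zero, map_zero, Submodule.coe_zero, sub_zero, h'.zero]
  exact ρ.2

theorem compat_sSup (K : Skel V W ν μ) (c : Set (V →ₗ.[ℚ] W)) (hne : c.Nonempty) (hc : DirectedOn (· ≤ ·) c) (h : ∀ φ ∈ c, Compat K φ) :
    Compat K (LinearPMap.sSup c hc) := by
  intro ρ x s hs
  obtain ⟨φ, hφ, hx⟩ := (LinearPMap.mem_domain_sSup_iff hne hc).1 x.2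
  have h1 := LinearPMap.sSup_apply hc hφ ⟨x, hx⟩
  have h2 := h φ hφ ρ ⟨x, hx⟩ s hs
  rw [← h1] at h2
  exact h2

/-- a good value at `x` -/
def GoodVal (K : Skel V W ν μ) (φ : V →ₗ.[ℚ] W) (x : V) (y : W) : Prop :=
  ∀ (ρ : PR) (a : φ.domain) (s : K.S ρ), ν (x - a - s) < ρ → μ (y - φ a - (K.e ρ s : W)) < ρ

theorem compat_ext (h : USpace V ν) (h' : USpace W μ) (K : Skel V W ν μ) {φ : V →ₗ.[ℚ] W} (hφ : Compat K φ) {x : V} {y : W} (hx : x ∉ φ.domain)
    (hy : GoodVal K φ x y) : Compat K (φ.supSpanSingleton x y hx) := by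
  rintro ρ ⟨z, hz⟩ s hs
  have hz' := hz
  rw [LinearPMap.domain_supSpanSingleton, Submodule.mem_sup] at hz'
  obtain ⟨a, ha, b, hb, rfl⟩ := hz'
  obtain ⟨c, rfl⟩ := Submodule.mem_span_singleton.1 hb
  have h1 := LinearPMap.supSpanSingleton_apply_mk φ x y hx a ha c
  rw [h1]
  simp only [RingHom.id_apply]
  by_cases hc : c = 0
  · subst hc
    rw [zero_smul, add_zero]
    refine hφ ρ ⟨a, ha⟩ s ?_
    simpa using hs
  · have h2 := hy ρ (-(c⁻¹ • (⟨a, ha⟩ : φ.domain))) (c⁻¹ • s) (by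
      have e : x - ((-(c⁻¹ • (⟨a, ha⟩ : φ.domain)) : φ.domain) : V) - ((c⁻¹ • s : K.S ρ) : V) = c⁻¹ • (a + c • x - s) := by
        simp only [Submodule.coe_neg, Submodule.coe_smul, smul_sub, smul_add]
        rw [smul_smul, inv_mul_cancel₀ hc, one_smul]
        abel
      rw [e, h.smul _ _ (inv_ne_zero hc)]
      exact hs)
    have e : y - φ (-(c⁻¹ • (⟨a, ha⟩ : φ.domain))) - ((K.e ρ (c⁻¹ • s) : K.T ρ) : W) = c⁻¹ • (φ ⟨a, ha⟩ + c • y - (K.e ρ s : W)) := by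
      rw [LinearPMap.map_neg, LinearPMap.map_smul, map_smul, Submodule.coe_smul, smul_sub, smul_add, smul_smul, inv_mul_cancel₀ hc, one_smul]
      abel
    rw [e, h'.smul _ _ (inv_ne_zero hc)] at h2
    exact h2

theorem exists_goodVal (h : USpace V ν) (h' : USpace W μ) (K : Skel V W ν μ) {φ : V →ₗ.[ℚ] W} (hφ : Compat K φ) (x : V) :
    ∃ y, GoodVal K φ x y := by
  by_cases hmin : ∃ a₀ : φ.domain, ∀ a : φ.domain, ν (x - a₀) ≤ ν (x - a)
  · obtain ⟨a₀, ha₀⟩ := hmin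
    rcases (h.nonneg (x - a₀)).lt_or_eq with h0 | h0
    · obtain ⟨s₀, hs₀, hs₀'⟩ := K.hS' ⟨_, h0⟩ (x - a₀) le_rfl
      obtain ⟨δ, hδ⟩ : ∃ δ : PR, δ = ⟨_, h0⟩ := ⟨_, rfl⟩
      rw [← hδ] at hs₀ hs₀'
      have hδ' : (δ : ℝ) = ν (x - a₀) := by rw [hδ]
      refine ⟨φ a₀ + (K.e δ ⟨s₀, hs₀⟩ : W), fun ρ a s hs => ?_⟩
      have h1 : (δ : ℝ) ≤ ρ := by
        rw [hδ']
        refine (ha₀ a).trans ?_
        have h2 : ν (s : V) ≤ ρ := by
          by_cases hs0 : (s : V) = 0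
          · rw [hs0, h.zero]
            exact ρ.2.le
          · exact (K.hS ρ s s.2 hs0).le
        have h3 := us_le h hs.le h2
        rwa [sub_add_cancel] at h3
      have e1 : φ a₀ + (K.e δ ⟨s₀, hs₀⟩ : W) - φ a - (K.e ρ s : W) = (K.e δ ⟨s₀, hs₀⟩ : W) - (φ (a - a₀) + (K.e ρ s : W)) := by
        rw [LinearPMap.map_sub]
        abel
      rw [e1]
      rcases h1.lt_or_eq with h2 | h2
      · refine us_lt' h' ?_ ?_
        · refine lt_of_le_of_lt ?_ h2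
          by_cases hs0 : ((K.e δ ⟨s₀, hs₀⟩ : K.T δ) : W) = 0
          · rw [hs0, h'.zero]
            exact δ.2.le
          · exact (K.hT δ _ (K.e δ _).2 hs0).le
        · have h3 := hφ ρ (a - a₀) (-s) (by
            have e2 : ((a - a₀ : φ.domain) : V) - ((-s : K.S ρ) : V) = (x - a₀) - (x - a - s) := by
              simp only [Submodule.coe_sub, Submodule.coe_neg]
              abel
            rw [e2]
            exact us_lt' h (by rw [← hδ']; exact h2) hs)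
          rw [map_neg, Submodule.coe_neg, sub_neg_eq_add] at h3
          exact h3
      · have h2' : δ = ρ := Subtype.ext h2
        subst h2'
        have h3 := hφ δ (a - a₀) (⟨s₀, hs₀⟩ - s) (by
          have e2 : ((a - a₀ : φ.domain) : V) - (((⟨s₀, hs₀⟩ : K.S δ) - s : K.S δ) : V) = (x - a₀ - s₀) - (x - a - s) := by
            simp only [Submodule.coe_sub]
            abel
          rw [e2]
          exact us_lt' h hs₀' hs)
        rw [map_sub, Submodule.coe_sub] at h3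
        rw [us_comm h']
        have e3 : φ (a - a₀) + (K.e δ s : W) - (K.e δ ⟨s₀, hs₀⟩ : W) = φ (a - a₀) - ((K.e δ ⟨s₀, hs₀⟩ : W) - (K.e δ s : W)) := by abel
        rw [e3]
        exact h3
    · refine ⟨φ a₀, fun ρ a s hs => ?_⟩
      have h3 := hφ ρ (a₀ - a) s (by
        have e2 : ((a₀ - a : φ.domain) : V) - (s : V) = (x - a - s) - (x - a₀) := by
          simp only [Submodule.coe_sub]
          abel
        rw [e2]
        exact us_lt' h hs (by rw [← h0]; exact ρ.2))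
      rw [LinearPMap.map_sub] at h3
      exact h3
  · push Not at hmin
    obtain ⟨y, hy⟩ := h'.sph φ.domain (fun a => φ a) (fun a => ν (x - a)) (by
      intro a b
      rw [← LinearPMap.map_sub, compat_norm h h' K hφ]
      have e2 : ((a - b : φ.domain) : V) = (x - b) - (x - a) := by
        simp only [Submodule.coe_sub]
        abel
      rw [e2, max_comm]
      exact us_le' h (le_max_left _ _) (le_max_right _ _))
    refine ⟨y, fun ρ a s hs => ?_⟩
    have h1 : ν (x - a) ≤ ρ := by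
      have h2 : ν (s : V) ≤ ρ := by
        by_cases hs0 : (s : V) = 0
        · rw [hs0, h.zero]
          exact ρ.2.le
        · exact (K.hS ρ s s.2 hs0).le
      have h3 := us_le h hs.le h2
      rwa [sub_add_cancel] at h3
    obtain ⟨a', ha'⟩ := hmin a
    have h2 : ν (x - a') < ρ := ha'.trans_le h1
    have h3 := hφ ρ (a' - a) s (by
      have e2 : ((a' - a : φ.domain) : V) - (s : V) = (x - a - s) - (x - a') := by
        simp only [Submodule.coe_sub]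
        abel
      rw [e2]
      exact us_lt' h hs h2)
    have h4 : μ (y - φ a') < ρ := (hy a').trans_lt h2
    have e3 : y - φ a - (K.e ρ s : W) = (y - φ a') + (φ (a' - a) - (K.e ρ s : W)) := by
      rw [LinearPMap.map_sub]
      abel
    rw [e3]
    exact us_lt h' h4 h3

end

theorem t_HAHN : S_HAHN := by
  intro V W _ _ _ _ ν μ h h'
  obtain ⟨K⟩ := exists_skel h h'
  obtain ⟨φ, -, hφ⟩ := zorn_le_nonempty₀ {φ : V →ₗ.[ℚ] W | Compat K φ} (by
    intro c hc hch y hy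
    have hdir : DirectedOn (· ≤ ·) c := hch.directedOn
    exact ⟨LinearPMap.sSup c hdir, compat_sSup K c ⟨y, hy⟩ hdir (fun φ hφ => hc hφ), fun z hz => LinearPMap.le_sSup hdir hz⟩) ⊥ (compat_bot h h' K)
  have hc : Compat K φ := hφ.prop
  have hdom : ∀ x : V, x ∈ φ.domain := by
    intro x
    by_contra hx
    obtain ⟨y, hy⟩ := exists_goodVal h h' K hc x
    have h1 := compat_ext h h' K hc hx hy
    have h2 : φ ≤ φ.supSpanSingleton x y hx := LinearPMap.left_le_sup _ _ _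
    have h3 := hφ.le_of_ge h1 h2
    apply hx
    apply h3.1
    rw [LinearPMap.domain_supSpanSingleton]
    exact Submodule.mem_sup_right (Submodule.mem_span_singleton_self x)
  obtain ⟨ψ, hψ⟩ : ∃ ψ : V →ₗ[ℚ] W, ∀ x, ψ x = φ ⟨x, hdom x⟩ :=
    ⟨φ.toFun.comp (LinearMap.codRestrict φ.domain LinearMap.id hdom), fun x => rfl⟩
  have hnorm : ∀ x, μ (ψ x) = ν x := fun x => by rw [hψ]; exact compat_norm h h' K hc _
  refine ⟨ψ, hnorm, fun y => ?_⟩
  obtain ⟨x₀, hx₀⟩ := h.sph V (fun x => x) (fun x => μ (y - ψ x)) (by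
    intro a b
    rw [← hnorm, map_sub]
    have e : ψ a - ψ b = (y - ψ b) - (y - ψ a) := by abel
    rw [e, max_comm]
    exact us_le' h' (le_max_left _ _) (le_max_right _ _))
  refine ⟨x₀, ?_⟩
  by_contra hne
  have h0 : 0 < μ (y - ψ x₀) := lt_of_le_of_ne (h'.nonneg _) (Ne.symm hne)
  obtain ⟨t, ht, ht'⟩ := K.hT' ⟨_, h0⟩ (y - ψ x₀) le_rfl
  obtain ⟨δ, hδ⟩ : ∃ δ : PR, δ = ⟨_, h0⟩ := ⟨_, rfl⟩
  rw [← hδ] at ht ht'
  have hδ' : (δ : ℝ) = μ (y - ψ x₀) := by rw [hδ]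
  have ht0 : t ≠ 0 := by
    rintro rfl
    rw [sub_zero, ← hδ'] at ht'
    exact lt_irrefl _ ht'
  obtain ⟨s, hs⟩ : ∃ s : K.S δ, K.e δ s = ⟨t, ht⟩ := ⟨(K.e δ).symm ⟨t, ht⟩, LinearEquiv.apply_symm_apply _ _⟩
  have hs0 : (s : V) ≠ 0 := by
    intro h1
    have h2 : s = 0 := Subtype.ext h1
    rw [h2, map_zero] at hs
    exact ht0 (congrArg Subtype.val hs).symm
  have h1 := hc δ ⟨s, hdom s⟩ s (by
    rw [sub_self, h.zero]
    exact δ.2)
  rw [hs, ← hψ] at h1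
  have h2 : μ (y - ψ (x₀ + s)) < δ := by
    have e : y - ψ (x₀ + s) = (y - ψ x₀ - t) - (ψ s - t) := by
      rw [map_add]
      abel
    rw [e]
    exact us_lt' h' ht' h1
  have h3 := hx₀ (x₀ + s)
  rw [sub_add_cancel_left, us_neg h, K.hS δ s s.2 hs0] at h3
  exact lt_irrefl _ (h3.trans_lt h2)

end

end Pool.Agent.Q177.AC
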