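import Pool.Agent.Q177.AC.Stm

set_option autoImplicit false

/-!
Project AC (helper177), jobs NU and TR4.
-/

namespace Pool.Agent.Q177.AC

open Filter Topology

noncomputable section

/-- `c ^ (1 / r_i) → 1` for `c > 0` -/
theorem rpow_tendsto_one {ω : Ultrafilter ℕ} (hω : (ω : Filter ℕ) ≤ atTop) (r : Scales) {c : ℝ} (hc : 0 < c) :
    Tendsto (fun i => c ^ (1 / r.r i)) ω (𝓝 1) := by
  have h1 : Tendsto (fun i => 1 / r.r i) ω (𝓝 0) := by
    have := (tendsto_const_nhds (x := (1 : ℝ)) (f := atTop)).div_atTop r.tends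
    exact this.mono_left hω
  have h2 := ((Real.continuous_const_rpow hc.ne').tendsto 0).comp h1
  rw [Real.rpow_zero] at h2
  exact h2

theorem t_NU : S_NU := by
  intro K _ _ ω hω β r
  have hr : ∀ i, 0 < 1 / r.r i := fun i => by
    have := r.pos i
    positivity
  have hpos : ∀ u : Vs K β r, 0 ≤ nu ω u := fun u =>
    ge_of_tendsto' (nu_tendsto hω u) fun i => by positivity
  refine ⟨hpos, ?_, ?_, ?_⟩
  · have h1 : Tendsto (fun i => (‖(0 : Vs K β r).1 i‖ * Real.exp (-β i)) ^ (1 / r.r i)) ω (𝓝 0) := by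
      have e : (fun i => (‖(0 : Vs K β r).1 i‖ * Real.exp (-β i)) ^ (1 / r.r i)) = fun _ => 0 := by
        funext i
        have e1 : (0 : Vs K β r).1 i = 0 := rfl
        rw [e1, norm_zero, zero_mul, Real.zero_rpow (hr i).ne']
      rw [e]
      exact tendsto_const_nhds
    exact tendsto_nhds_unique (nu_tendsto hω _) h1
  · intro u v
    have h1 := (rpow_tendsto_one hω r (by norm_num : (0 : ℝ) < 2)).mul ((nu_tendsto hω u).max (nu_tendsto hω v))
    rw [one_mul] at h1
    refine le_of_tendsto_of_tendsto' (nu_tendsto hω (u + v)) h1 fun i => ?_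
    have a1 : 0 ≤ ‖u.1 i‖ * Real.exp (-β i) := by positivity
    have a2 : 0 ≤ ‖v.1 i‖ * Real.exp (-β i) := by positivity
    have a3 : ‖(u + v).1 i‖ * Real.exp (-β i) ≤ 2 * max (‖u.1 i‖ * Real.exp (-β i)) (‖v.1 i‖ * Real.exp (-β i)) := by
      have e1 : (u + v).1 i = u.1 i + v.1 i := rfl
      rw [e1]
      have e2 := mul_le_mul_of_nonneg_right (norm_add_le (u.1 i) (v.1 i)) (Real.exp_pos (-β i)).le
      have e3 := le_max_left (‖u.1 i‖ * Real.exp (-β i)) (‖v.1 i‖ * Real.exp (-β i))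
      have e4 := le_max_right (‖u.1 i‖ * Real.exp (-β i)) (‖v.1 i‖ * Real.exp (-β i))
      linarith
    refine (Real.rpow_le_rpow (by positivity) a3 (hr i).le).trans (le_of_eq ?_)
    rw [Real.mul_rpow (by norm_num) (le_max_of_le_left a1)]
    congr 1
    rcases le_total (‖u.1 i‖ * Real.exp (-β i)) (‖v.1 i‖ * Real.exp (-β i)) with h | h
    · rw [max_eq_right h, max_eq_right (Real.rpow_le_rpow a1 h (hr i).le)]
    · rw [max_eq_left h, max_eq_left (Real.rpow_le_rpow a2 h (hr i).le)]
  · intro c u hc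
    have hc' : 0 < ‖(c : K)‖ := norm_pos_iff.2 (by exact_mod_cast hc)
    have h1 := (rpow_tendsto_one hω r hc').mul (nu_tendsto hω u)
    rw [one_mul] at h1
    refine tendsto_nhds_unique (nu_tendsto hω (c • u)) (h1.congr fun i => ?_)
    have e1 : (c • u).1 i = (c : K) * u.1 i := by
      have : (c • u).1 i = c • (u.1 i) := rfl
      rw [this, Rat.smul_def]
    rw [e1, norm_mul, mul_assoc, Real.mul_rpow hc'.le (by positivity)]

theorem t_TR4 : S_TR4 := by
  intro K _ _ a b c e
  obtain ⟨⟨xa, ha⟩, rfl⟩ := SeparationQuotient.surjective_mk a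
  obtain ⟨⟨xb, hb⟩, rfl⟩ := SeparationQuotient.surjective_mk b
  obtain ⟨⟨xc, hc⟩, rfl⟩ := SeparationQuotient.surjective_mk c
  obtain ⟨⟨xe, he⟩, rfl⟩ := SeparationQuotient.surjective_mk e
  obtain ⟨M, hM⟩ : ∃ M : K → ℝ → K → ℝ → ℝ, M = fun x h x' h' => Real.log (max ‖x - x'‖ (max (Real.exp h) (Real.exp h'))) := ⟨_, rfl⟩
  have hd : ∀ (x x' : K) (h h' : ℝ), dist (SeparationQuotient.mk (TreeP.mk x h)) (SeparationQuotient.mk (TreeP.mk x' h')) = 2 * M x h x' h' - h - h' := by
    intro x x' h h'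
    rw [SeparationQuotient.dist_mk, treeP_dist, dT, hM]
  have hsymm : ∀ x h x' h', M x h x' h' = M x' h' x h := by
    intro x h x' h'
    rw [hM]
    simp only
    rw [norm_sub_rev, max_comm (Real.exp h)]
  have hult : ∀ x h x' h' x'' h'', M x h x'' h'' ≤ max (M x h x' h') (M x' h' x'' h'') := by
    intro x h x' h' x'' h''
    rw [hM]
    simp only
    have p1 := Real.exp_pos h
    have p2 := Real.exp_pos h'
    have p3 := Real.exp_pos h''
    have q1 : 0 < max ‖x - x'‖ (max (Real.exp h) (Real.exp h')) := lt_max_of_lt_right (lt_max_of_lt_left p1)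
    have q2 : 0 < max ‖x' - x''‖ (max (Real.exp h') (Real.exp h'')) := lt_max_of_lt_right (lt_max_of_lt_left p2)
    have q3 : 0 < max ‖x - x''‖ (max (Real.exp h) (Real.exp h'')) := lt_max_of_lt_right (lt_max_of_lt_left p1)
    have hc : ‖x - x''‖ ≤ max ‖x - x'‖ ‖x' - x''‖ := by
      have := IsUltrametricDist.norm_add_le_max (x - x') (x' - x'')
      rwa [sub_add_sub_cancel] at this
    have e3 : max ‖x - x''‖ (max (Real.exp h) (Real.exp h'')) ≤
        max (max ‖x - x'‖ (max (Real.exp h) (Real.exp h'))) (max ‖x' - x''‖ (max (Real.exp h') (Real.exp h''))) := by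
      refine max_le (hc.trans (max_le_max (le_max_left _ _) (le_max_left _ _))) (max_le ?_ ?_)
      · exact le_max_of_le_left (le_max_of_le_right (le_max_left _ _))
      · exact le_max_of_le_right (le_max_of_le_right (le_max_right _ _))
    rcases le_max_iff.1 e3 with g | g
    · exact le_max_of_le_left (Real.log_le_log q3 g)
    · exact le_max_of_le_right (Real.log_le_log q3 g)
  rw [hd, hd, hd, hd, hd, hd]
  have i1 := le_max_iff.1 (hult xa ha xb hb xc hc)
  have i2 := le_max_iff.1 (hult xa ha xe he xc hc)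
  have i3 := le_max_iff.1 (hult xb hb xa ha xe he)
  have i4 := le_max_iff.1 (hult xb hb xc hc xe he)
  rw [hsymm xe he xc hc] at i2
  rw [hsymm xb hb xa ha] at i3
  by_contra hcon
  push Not at hcon
  rw [max_lt_iff] at hcon
  obtain ⟨c1, c2⟩ := hcon
  rcases i1 with i1 | i1 <;> rcases i2 with i2 | i2 <;> rcases i3 with i3 | i3 <;> rcases i4 with i4 | i4 <;> linarith

end

end Pool.Agent.Q177.AC
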