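import Pool.Agent.Q177.AC.Stm

set_option autoImplicit false

/-!
Project AC (helper177), job SPH: spherical completeness.
-/

namespace Pool.Agent.Q177.AC

open Filter Topology

noncomputable section

open scoped Classical in
theorem diag {K : Type} [NormedField K] [CharZero K] {ω : Ultrafilter ℕ} (hω : (ω : Filter ℕ) ≤ atTop) {β : ℕ → ℝ} {r : Scales}
    (b : ℕ → Vs K β r) (ρ : ℕ → ℝ) (hρ0 : ∀ n, 0 ≤ ρ n) (h : ∀ m n, m ≤ n → nu ω (b n - b m) ≤ ρ m) : ∃ x : Vs K β r, ∀ m, nu ω (x - b m) ≤ ρ m := by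
  obtain ⟨q, hq⟩ : ∃ q : (ℕ → K) → ℕ → ℝ, q = fun u i => (‖u i‖ * Real.exp (-β i)) ^ (1 / r.r i) := ⟨_, rfl⟩
  obtain ⟨E, hE⟩ : ∃ E : ℕ → ℕ → Prop, E = fun n i => n ≤ i ∧ ∀ m ∈ Finset.range (n + 1), q ((b n - b m : Vs K β r).1) i ≤ ρ m + 1 / ((n : ℝ) + 1) := ⟨_, rfl⟩
  have hE1 : ∀ n, ∀ᶠ i in (ω : Filter ℕ), E n i := by
    intro n
    rw [hE]
    have h0 : ∀ᶠ i in (ω : Filter ℕ), n ≤ i := hω (eventually_ge_atTop n)
    refine h0.and ((Filter.eventually_all_finset _).2 fun m hm => ?_)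
    rw [Finset.mem_range] at hm
    have h1 := nu_tendsto hω (b n - b m)
    have h2 : nu ω (b n - b m) < ρ m + 1 / ((n : ℝ) + 1) := by
      have := h m n (by omega)
      have h3 : (0 : ℝ) < 1 / ((n : ℝ) + 1) := by positivity
      linarith
    rw [hq]
    exact (h1.eventually_lt_const h2).mono fun i hi => hi.le
  obtain ⟨F, hF⟩ : ∃ F : ℕ → ℕ → Prop, F = fun n i => ∀ k ∈ Finset.range (n + 1), E k i := ⟨_, rfl⟩
  have hF1 : ∀ n, ∀ᶠ i in (ω : Filter ℕ), F n i := by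
    intro n
    rw [hF]
    exact (Filter.eventually_all_finset _).2 fun k _ => hE1 k
  have hFle : ∀ n i, F n i → n ≤ i := by
    intro n i hn
    rw [hF] at hn
    have := hn n (Finset.self_mem_range_succ n)
    rw [hE] at this
    exact this.1
  obtain ⟨N, hN⟩ : ∃ N : ℕ → ℕ, N = fun i => Nat.findGreatest (fun n => F n i) i := ⟨_, rfl⟩
  have hN1 : ∀ n i, F n i → n ≤ N i ∧ F (N i) i := by
    intro n i hn
    rw [hN]
    exact ⟨Nat.le_findGreatest (hFle n i hn) hn, Nat.findGreatest_spec (P := fun n => F n i) (hFle n i hn) hn⟩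
  have hkey : ∀ m n i, m ≤ n → F n i → q (fun i => (b (N i)).1 i - (b m).1 i) i ≤ ρ m + 1 / ((n : ℝ) + 1) := by
    intro m n i hmn hn
    obtain ⟨h1, h2⟩ := hN1 n i hn
    rw [hF] at h2
    have h3 := h2 (N i) (Finset.self_mem_range_succ _)
    rw [hE] at h3
    have h4 := h3.2 m (Finset.mem_range.2 (by omega))
    have h5 : 1 / ((N i : ℝ) + 1) ≤ 1 / ((n : ℝ) + 1) := by
      apply one_div_le_one_div_of_le (by positivity)
      have : (n : ℝ) ≤ N i := by exact_mod_cast h1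
      linarith
    have h6 : q (fun i => (b (N i)).1 i - (b m).1 i) i = q ((b (N i) - b m : Vs K β r).1) i := by
      rw [hq]
      rfl
    rw [h6]
    linarith
  have hu : (fun i => (b (N i)).1 i - (b 0).1 i) ∈ Vs K β r := by
    refine ⟨1, Real.log (ρ 0 + 1), fun i => ?_⟩
    rw [one_mul]
    by_cases h0 : F 0 i
    · have h1 := hkey 0 0 i le_rfl h0
      rw [hq] at h1
      simp only [Nat.cast_zero, zero_add, div_one] at h1
      have hr := r.pos i
      have hnn : 0 ≤ ‖(b (N i)).1 i - (b 0).1 i‖ * Real.exp (-β i) := by positivity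
      have h2 := Real.rpow_le_rpow (Real.rpow_nonneg hnn _) h1 hr.le
      rw [← Real.rpow_mul hnn, one_div, inv_mul_cancel₀ hr.ne', Real.rpow_one] at h2
      rwa [Real.rpow_def_of_pos (by linarith [hρ0 0] : 0 < ρ 0 + 1)] at h2
    · have h1 : N i = 0 := by
        by_contra hne
        have h2 : F (N i) i := by
          have h3 := Nat.findGreatest_of_ne_zero (P := fun n => F n i) (n := i) (m := N i) (by rw [hN]) hne
          exact h3
        apply h0
        rw [hF] at h2 ⊢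
        intro k hk
        exact h2 k (Finset.mem_range.2 (by rw [Finset.mem_range] at hk; omega))
      have h2 : (fun i => (b (N i)).1 i - (b 0).1 i) i = 0 := by
        simp only
        rw [h1, sub_self]
      rw [h2, norm_zero, zero_mul]
      exact (Real.exp_pos _).le
  have hx : (fun i => (b (N i)).1 i) ∈ Vs K β r := by
    have h1 := (Vs K β r).add_mem hu (b 0).2
    have e : (fun i => (b (N i)).1 i - (b 0).1 i) + (b 0).1 = fun i => (b (N i)).1 i := by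
      funext i
      simp
    rwa [e] at h1
  refine ⟨⟨_, hx⟩, fun m => ?_⟩
  apply le_of_forall_pos_le_add
  intro ε hε
  obtain ⟨n, hn⟩ := exists_nat_one_div_lt hε
  have h1 := nu_tendsto hω ((⟨_, hx⟩ : Vs K β r) - b m)
  refine le_of_tendsto h1 ((hF1 (max m n)).mono fun i hi => ?_)
  have h2 := hkey m (max m n) i (le_max_left _ _) hi
  have h3 : 1 / (((max m n : ℕ) : ℝ) + 1) ≤ 1 / ((n : ℝ) + 1) := by
    apply one_div_le_one_div_of_le (by positivity)
    have : (n : ℝ) ≤ ((max m n : ℕ) : ℝ) := by exact_mod_cast le_max_right m n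
    linarith
  rw [hq] at h2
  have h4 : (‖((⟨_, hx⟩ : Vs K β r) - b m).1 i‖ * Real.exp (-β i)) ^ (1 / r.r i) =
      (‖(b (N i)).1 i - (b m).1 i‖ * Real.exp (-β i)) ^ (1 / r.r i) := rfl
  rw [h4]
  simp only at h2
  linarith

theorem t_SPH : J_SPH := by
  intro hN K _ _ ω hω β r ι a ρ hρ
  obtain ⟨-, nz, nadd, nsmul⟩ := hN K ω hω β r
  have hρ0 : ∀ s, 0 ≤ ρ s := by
    intro s
    have := hρ s s
    rwa [sub_self, nz, max_self] at this
  rcases isEmpty_or_nonempty ι with hι | ⟨⟨s₀⟩⟩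
  · exact ⟨0, fun s => (hι.false s).elim⟩
  by_cases hmin : ∃ s₀, ∀ s, ρ s₀ ≤ ρ s
  · obtain ⟨s₁, h1⟩ := hmin
    exact ⟨a s₁, fun s => (hρ s₁ s).trans (max_le (h1 s) le_rfl)⟩
  push Not at hmin
  obtain ⟨I, hI⟩ : ∃ I : ℝ, I = ⨅ s, ρ s := ⟨_, rfl⟩
  have hbdd : BddBelow (Set.range ρ) := ⟨0, by rintro _ ⟨s, rfl⟩; exact hρ0 s⟩
  have hIlt : ∀ t, I < ρ t := by
    intro t
    obtain ⟨t', ht'⟩ := hmin t
    rw [hI]
    exact (ciInf_le hbdd t').trans_lt ht'
  have hstep : ∀ (s : ι) (n : ℕ), ∃ s', ρ s' < ρ s ∧ ρ s' < I + 1 / ((n : ℝ) + 1) := by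
    intro s n
    haveI : Nonempty ι := ⟨s₀⟩
    have h1 : ⨅ s, ρ s < I + 1 / ((n : ℝ) + 1) := by
      rw [← hI]
      have : (0 : ℝ) < 1 / ((n : ℝ) + 1) := by positivity
      linarith
    obtain ⟨s', hs'⟩ := exists_lt_of_ciInf_lt h1
    obtain ⟨s'', hs''⟩ := hmin s
    rcases lt_or_ge (ρ s') (ρ s) with h2 | h2
    · exact ⟨s', h2, hs'⟩
    · exact ⟨s'', hs'', hs''.trans (h2.trans_lt hs')⟩
  choose g g1 g2 using hstep
  obtain ⟨σ, hσ0, hσ⟩ : ∃ σ : ℕ → ι, σ 0 = s₀ ∧ ∀ n, σ (n + 1) = g (σ n) n :=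
    ⟨fun n => Nat.rec s₀ (fun n s => g s n) n, rfl, fun n => rfl⟩
  have hanti : Antitone (fun n => ρ (σ n)) := antitone_nat_of_succ_le fun n => by
    rw [hσ]
    exact (g1 _ _).le
  obtain ⟨x, hx⟩ := diag hω (fun n => a (σ n)) (fun n => ρ (σ n)) (fun n => hρ0 _) (by
    intro m n hmn
    exact (hρ _ _).trans (max_le (hanti hmn) le_rfl))
  refine ⟨x, fun t => ?_⟩
  obtain ⟨n, hn⟩ := exists_nat_one_div_lt (sub_pos.2 (hIlt t))
  have h1 : ρ (σ (n + 1)) < ρ t := by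
    rw [hσ]
    have := g2 (σ n) n
    linarith
  have h2 := nadd (x - a (σ (n + 1))) (a (σ (n + 1)) - a t)
  rw [sub_add_sub_cancel] at h2
  exact h2.trans (max_le ((hx (n + 1)).trans h1.le) ((hρ _ _).trans (max_le h1.le le_rfl)))

end

end Pool.Agent.Q177.AC
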