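import Pool.Agent.Q177.AC.Base

set_option autoImplicit false

/-!
Project AC (helper177), row MP_efec2f_gt (asymptotic cones and sequence distortion spectra): statements with complete proofs in the docstrings.
All definitions are in `Base.lean` (proved there: `tendsto_ulim`, `cone_tendsto`, `nu_tendsto`, `scales_lower`, `dT_tri`, `Tree.dist_pt`, `treeP_dist`).
`dT n h h' = 2 log (max n (max (exp h) (exp h'))) - h - h'`. The field `K` is `ℝ` or `ℚ_2`.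
-/

namespace Pool.Agent.Q177.AC

open Filter Topology

noncomputable section

/-- TRG: the tree of balls is geodesic. PROOF. `a = pt x h`, `b = pt x' h'` (`SeparationQuotient.mk` is surjective), `n = ‖x - x'‖`, `m = log (max n (max (exp h) (exp h')))`,
so `h, h' ≤ m` and `dist a b = (m - h) + (m - h')`. `γ s = pt x (h + s)` for `s ≤ m - h` and `γ s = pt x' (2 m - h - s)` for `s > m - h` (up from `a` to height `m`, then down).
Both formulas agree at `s = m - h`, since `pt x m = pt x' m` (distance `dT n m m = 0`, because `n ≤ exp m`); `γ 0 = a`, `γ (dist a b) = b`. For `s, t ≤ m - h`: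
`dist = dT 0 (h+s) (h+t) = |s - t|` (`dT 0 u v = |u - v|`). For `s, t > m - h` the same. For `s ≤ m - h < t`: heights `u = h + s ≤ m`, `v = 2m - h - t ≤ m`, distance `dT n u v`, and it is
`2m - u - v = t - s`: if `n = exp m` then `max n (max (exp u) (exp v)) = exp m`. Otherwise `n < exp m`, so `m = max h h'`; if `m = h` then `s = 0` (as `0 ≤ s ≤ m - h`), `u = h = m`, the maximum is
`exp m` again; if `m = h'` then `dist a b = m - h`, so `t > m - h` is impossible. -/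
def S_TRG : Prop := ∀ (K : Type) [NormedField K] [IsUltrametricDist K], Geodesic (Tree K)

/-- TRP: the tree of balls of a proper ultrametric field is proper. PROOF. Closed ball with centre `pt x h` and radius `R` (`≥ 0`, otherwise empty). A point `pt y v` of the ball satisfies
`|v - h| ≤ dT ‖x-y‖ h v ≤ R` (as the logarithm is `≥ max h v`) and `2 log ‖x - y‖ ≤ R + h + v ≤ 2R + 2h`, so `‖x - y‖ ≤ exp (R + h)`. So the closed ball is a closed subset of the image of the compact set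
`closedBall x (exp (R+h)) ×ˢ Icc (h - R) (h + R)` under `(y, v) ↦ pt y v`, which is continuous as a map from `K × ℝ`: at `(y, v)`, for `(y', v')` with `‖y - y'‖ ≤ exp (v - 1)`, `|v - v'| < 1`, one has
`‖y - y'‖ ≤ exp v'` so `dist (pt y v) (pt y' v') = |v - v'|`. -/
def S_TRP : Prop := ∀ (K : Type) [NormedField K] [IsUltrametricDist K] [ProperSpace K], ProperSpace (Tree K)

/-- TR4: the four point condition for the tree of balls. PROOF. Points `a = pt x_a h_a`, ...; `M(a,b) = log (max ‖x_a - x_b‖ (max (exp h_a) (exp h_b)))`, `dist a b = 2 M(a,b) - h_a - h_b`, so the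
claim is `p + q ≤ max (s + t) (u + w)` for `p = M(a,c)`, `q = M(b,e)`, `s = M(a,b)`, `t = M(c,e)`, `u = M(a,e)`, `w = M(b,c)`. `M(a,c) ≤ max (M(a,b)) (M(b,c))` for all triples (ultrametric inequality; see
the proof of `dT_tri`). So `p ≤ max s w`, `p ≤ max u t`, `q ≤ max s u`, `q ≤ max w t`, and these four inequalities imply the claim (16 cases, `linarith`): e.g. `p ≤ s`, `p + q > s + t`, `p + q > u + w` give
`q > t`, so `q ≤ w`, so `p > u`, so `p ≤ t`, `u < p ≤ t < q`, so `q ≤ s`, `s + t ≥ q + p`, a contradiction. -/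
def S_TR4 : Prop := ∀ (K : Type) [NormedField K] [IsUltrametricDist K], FourPoint (Tree K)

/-- LIN: in a tree only linear functions are realizable. PROOF. `p` is `f`-distorted with constants `A, B, N₀`, index set the positive integers. (1) `d(p_k, p_{k+1}) ≤ J := B f(N₀+1) + B f(N₀)`: triangle inequality
through `p_{k+N₀+1}`. (2) `K` with `K ≥ N₀` and `A f(k) > 5 J` for `k ≥ K` (`f` unbounded, nondecreasing): so `d(p_k, p_l) ≤ 5 J` implies `|k - l| < K`. (3) Let `v` be a point of a geodesic from `a = p_1` to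
`b = p_{N+1}`, `d(a,v) + d(v,b) = d(a,b)`. There is `k ∈ [1, N+1]` with `d(p_k, v) ≤ J`: otherwise with the Gromov product `(y|z) = (d(y,v) + d(z,v) - d(y,z))/2` we have `(p_k|p_{k+1}) ≥ (J + J - J)/2 > 0`;
the four point condition gives `(y|z) ≥ min (y|x) (x|z)` (apply it to `d(y,z) + d(x,v) ≤ max (d(y,x) + d(z,v)) (d(y,v) + d(x,z))`), so by induction on `k`, `(a|p_k) ≥ J/2 > 0` (start: `(a|a) = d(a,v) > J`),
so `(a|b) > 0`, but `(a|b) = 0`. (4) Let `D = d(a,b)`, `γ` the geodesic, `v_j = γ(min (3 J j) D)` for `j = 0, ..., m`, `m = ⌈D/(3J)⌉`, and `k_j` with `d(p_{k_j}, v_j) ≤ J`, `k_0 = 1`, `k_m = N + 1`.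
`d(p_{k_j}, p_{k_{j+1}}) ≤ 5 J`, so `|k_j - k_{j+1}| < K`, so `N ≤ K m ≤ K (D/(3J) + 1) ≤ K (B f(N)/(3J) + 1)` for `N ≥ N₀`. So `f(N) ≥ c N` for large `N` with `c = 3J/(2 K B)` (`J > 0` since `f > 0`). -/
def S_LIN : Prop := ∀ (X : Type) [MetricSpace X], Geodesic X → FourPoint X → ∀ f : ℕ → ℝ, IsRate f → Realizable X Pos f →
  ∃ c : ℝ, 0 < c ∧ ∀ᶠ N : ℕ in atTop, c * N ≤ f N

/-- HYG: the upper half plane is geodesic. PROOF. `UpperHalfPlane.isometry_vertical_line a : Isometry (fun y => mk ⟨a, exp y⟩ _)`: if `z.re = w.re = a` then `z = mk ⟨a, exp y⟩`, `w = mk ⟨a, exp y'⟩`,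
`y = log z.im`, `y' = log w.im`, `dist z w = |y - y'|` and the restriction of this line (reversed if `y' < y`) is a geodesic. In general (`z.re ≠ w.re`) it suffices to find an isometry `g` of `ℍ` onto `ℍ` (an element of
`SL(2, ℝ)`, Mathlib: `IsIsometricSMul SL(2, ℝ) ℍ`) with `(g z).re = (g w).re = 0` and to pull back the geodesic with `g⁻¹`. `c = (|w|² - |z|²)/(2 (w.re - z.re))`, `R = |z - c| = |w - c| > 0`:
`g = (2R)^{-1/2} [[1, -(c-R)], [-1, c+R]]`, determinant `((c+R) - (c-R))/(2R) = 1`; `g z = (z - c + R)/(c + R - z)` and with `ζ = z - c`, `|ζ| = R`: `(ζ + R)/(R - ζ) = (ζ+R)(R - conj ζ)/|R - ζ|²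
= R (ζ - conj ζ)/|R - ζ|²` is purely imaginary. Other route: `g` the composition of a translation by `-(c-R)`, of the inversion `z ↦ -1/z` and of a further translation (Mathlib has the isometries
`UpperHalfPlane.isometry_real_vadd`, and `ModularGroup.S`, `specialLinearGroup_apply`): the circle through `0` and `2R` is mapped by `z ↦ -1/z` to the vertical line `re = -1/(2R)`
(`|z|² = 2 R re z`, so `re (-1/z) = - re z/|z|² = -1/(2R)`); this only needs one translation and `S`. -/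
def S_HYG : Prop := Geodesic UpperHalfPlane

/-- horospherical coordinates of the upper half plane -/
def hp (x h : ℝ) : UpperHalfPlane := ⟨⟨x, Real.exp h⟩, Real.exp_pos h⟩

/-- HYC: the distance of the upper half plane up to a constant. PROOF. `z = hp x h`, `w = hp x' h'`, `y = exp h`, `y' = exp h'`, `n = |x - x'|`, `m = max n (max y y')`.
`dist z w = 2 arsinh (τ)`, `τ = |z - w|/(2 √(y y'))` (`UpperHalfPlane.dist_eq`), and for `τ ≥ 0`: `log (max (2τ) 1) ≤ arsinh τ ≤ log (2τ + 1) ≤ log (max (2τ) 1) + log 2`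
(`arsinh τ = log (τ + √(1+τ²))`). So `dist z w` is `2 log (max (|z-w|/√(y y')) 1) = 2 log (max |z-w| √(y y')) - h - h'` up to `2 log 2`. Finally `m/4 ≤ max |z-w| √(y y') ≤ 2 m`:
`|z-w| ≤ n + |y-y'| ≤ 2m`, `√(y y') ≤ m`; `|z - w| ≥ n`, and if `y ≥ y'`: either `y' ≥ y/4`, `√(y y') ≥ y/2`, or `|z-w| ≥ y - y' ≥ y/2` (symmetric for `y' ≥ y`). So `C = 10` works. -/
def S_HYC : Prop := ∃ C : ℝ, ∀ x h x' h' : ℝ, |dist (hp x h) (hp x' h') - dT ‖x - x'‖ h h'| ≤ C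

/-- distortion of the horocycle -/
def f0 (N : ℕ) : ℝ := 2 * Real.arsinh (N / 2)

/-- LOG: the horocycle. PROOF. `p_n = n + i`, `dist p_n p_m = 2 arsinh (|n - m|/2) = f0 |n-m|` (`UpperHalfPlane.dist_eq`), so `p` restricted to `I` is `f0`-distorted with `A = B = N₀ = 1`.
`f0` is a rate function: positive for `n ≥ 1`, increasing and unbounded (`Real.arsinh` strictly increasing, `arsinh (sinh t) = t`), `f0 N ≤ f0 (M N)`, and `f0 (M N) = dist p_0 p_{MN} ≤ M f0 N` (triangle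
inequality along `p_0, p_N, p_{2N}, ...`; induction on `M`). `f0 N = o(N)`: `arsinh τ = log (τ + √(1+τ²)) ≤ log (2τ + 1)`, so `f0 N ≤ 2 log (N + 1)`, and `log (N+1)/N → 0`. -/
def S_LOG : Prop := IsRate f0 ∧ (∀ I : Set ℤ, Realizable UpperHalfPlane I f0) ∧ ∀ c : ℝ, 0 < c → ∀ᶠ N : ℕ in atTop, f0 N < c * N

/-- GOOD: `ℝ` and `ℚ_2` satisfy `Good`. PROOF. `ℝ`: `|j| |j| ≥ 1`; `t = s`; `Cardinal.mk_real`. `ℚ_2`: `‖(j:ℚ_2)‖ = 2^{-v}` with `2^v ∣ j`, so `2^v ≤ |j|` (`padicNorm`, `Padic.norm_int...`; e.g.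
`‖j‖ ≤ 2^{-n} ↔ 2^n ∣ j`: `Padic.norm_int_le_pow_iff_dvd`); `t = 2^{-n}` for the integer `n` with `2^{n-1} < s ≤ 2^n` (`exists_mem_Ioc_zpow`), `‖2^{-n}‖ = 2^n ≤ 2 s`; the cardinality: a separable metric space
injects into the set of the subsets of a countable basis (or: `ℚ_2` is a quotient of a set of Cauchy sequences of rational numbers, `CauSeq.Completion`, `#(ℕ → ℚ) = continuum`). -/
def S_GOOD : Prop := Good ℝ ∧ Good ℚ_[2]

/-- NU: `nu` is an ultrametric norm, invariant under `ℚ^*`. PROOF. `nu_tendsto` for all the sequences. `0 ≤ nu`; `nu 0 = 0` since `0 ^ (1/r) = 0`. Write `|u|_i = ‖u i‖ exp (-β i)`.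
`|u+v|_i ≤ |u|_i + |v|_i ≤ 2 max |u|_i |v|_i`, so `|u+v|_i^{1/r} ≤ 2^{1/r} max (|u|_i^{1/r}) (|v|_i^{1/r})` (`Real.rpow_le_rpow`, `Real.mul_rpow`) and `2^{1/r_i} → 1`. `|c u|_i = ‖c‖ |u|_i` and
`‖c‖^{1/r_i} → 1` as `‖(c : K)‖ > 0`. -/
def S_NU : Prop := ∀ (K : Type) [NormedField K] [CharZero K] (ω : Ultrafilter ℕ), (ω : Filter ℕ) ≤ atTop → ∀ (β : ℕ → ℝ) (r : Scales),
  (∀ u : Vs K β r, 0 ≤ nu ω u) ∧ nu ω (0 : Vs K β r) = 0 ∧ (∀ u v : Vs K β r, nu ω (u + v) ≤ max (nu ω u) (nu ω v)) ∧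
    ∀ (c : ℚ) (u : Vs K β r), c ≠ 0 → nu ω (c • u) = nu ω u

/-- SPH: `Vs` is spherically complete. Job `J_SPH`. PROOF. `ρ s ≥ nu 0 = 0`. If `ι` is empty, `x = 0`. If some `ρ s₀` is the minimum of `ρ`: `x = a s₀`, as `nu (a s₀ - a s) ≤ max (ρ s₀) (ρ s) = ρ s`.
Otherwise there is a sequence `s_n` with `ρ (s_n)` strictly decreasing to the infimum, so that for each `t` some `ρ (s_n) < ρ t`; if `nu (x - a (s_n)) ≤ ρ (s_n)` for all `n`, then
`nu (x - a t) ≤ max (nu (x - a s_n)) (nu (a s_n - a t)) ≤ ρ t`. So let `b_n = a (s_n)`, `ρ_n = ρ (s_n)`, `nu (b_n - b_m) ≤ ρ_m` for `m ≤ n`. With `|u|_i = (‖u i‖ exp (-β i))^{1/r_i}` the set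
`E_n = {i : i ≥ n, |b_n - b_m|_i ≤ ρ_m + 1/(n+1) for all m ≤ n}` is in `ω` (`nu_tendsto`, `ω ≤ atTop`). `F_n = E_0 ∩ ... ∩ E_n`, decreasing. `N(i)` = the largest `n ≤ i` with `i ∈ F_n` (`0` if there is none) and
`x i = b_{N(i)} i`. For `i ∈ F_n`, `N(i) ≥ n`. So for `m ≤ n` and `i ∈ F_n`: `|x - b_m|_i ≤ ρ_m + 1/(N(i)+1) ≤ ρ_m + 1/(n+1)`. In particular (`m = 0`, `i ∈ F_0`) `‖x i - b_0 i‖ exp (-β i) ≤ (ρ_0 + 1)^{r_i}`,
and for `i ∉ F_0`, `x i = b_0 i`: so `x ∈ Vs` (`x - b_0` is in `Vs`, with `C = 1`, `D = log (ρ_0 + 1)`), and `nu (x - b_m) ≤ ρ_m + 1/(n+1)` for all `n ≥ m`, so `≤ ρ_m`. -/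
def S_SPH : Prop := ∀ (K : Type) [NormedField K] [CharZero K] (ω : Ultrafilter ℕ), (ω : Filter ℕ) ≤ atTop → ∀ (β : ℕ → ℝ) (r : Scales)
  (ι : Type) (a : ι → Vs K β r) (ρ : ι → ℝ), (∀ s t, nu ω (a s - a t) ≤ max (ρ s) (ρ t)) → ∃ x : Vs K β r, ∀ s, nu ω (x - a s) ≤ ρ s

def J_SPH : Prop := S_NU → S_SPH

/-- RES: residue spaces. Job `J_RES`. PROOF. `V = Vs K β r`, `V^ρ = {ν ≤ ρ}`, `V_ρ = {ν < ρ}` are `ℚ`-subspaces (S_NU, `ρ > 0`), `V_ρ ≤ V^ρ`. Let `S` be a complement of `V_ρ` in `V^ρ`: `V_ρ ⊓ S = ⊥`, `V_ρ ⊔ S = V^ρ`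
(`Submodule.exists_isCompl` inside `V^ρ`, or `exists_isCompl V_ρ` with complement `Q` and `S = Q ⊓ V^ρ`, modular law). So `ν s = ρ` for `s ∈ S`, `s ≠ 0`, and each `x ∈ V^ρ` is `s + x'` with `ν x' < ρ`.
Rank: `#S ≤ #(ℕ → K) ≤ continuum ^ ℵ₀ = continuum`. `#S ≥ continuum`: choose `t_i ∈ K` with `exp (β_i) ρ^{r_i} ≤ ‖t_i‖ ≤ 2 exp (β_i) ρ^{r_i}` (`Good`) and `k_i ∈ ℕ` with `k_i → ∞`, `k_i/r_i → 0`
(`k_i = ⌊√r_i⌋`). For `a : ℕ → Bool` let `u^a_i = (∑_{l < k_i} a_l 2^l) t_i`; `u^a ∈ V^ρ` (`‖integer‖ ≤ |integer| < 2^{k_i}`, `(2^{k_i+1})^{1/r_i} → 1`). If `a ≠ b` differ at `l`, then for `k_i > l` the integer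
`j = ∑_{l<k_i} (a_l - b_l) 2^l` is not `0`, `|j| < 2^{k_i}`, so `2^{-k_i} ≤ ‖(j:K)‖ ≤ 2^{k_i}` (`Good`) and `(‖u^a_i - u^b_i‖ exp (-β_i))^{1/r_i}` is between `2^{-k_i/r_i} ρ` and `2^{(k_i+1)/r_i} ρ`, so `ν (u^a - u^b) = ρ`.
So the components `s^a ∈ S` of `u^a` are different for different `a`: `#S ≥ 2^ℵ₀`. As `#S = continuum > ℵ₀ = #ℚ`: rank `= #S` (Mathlib: `rank_eq_mk_of_infinite_lt`, used for `Real.rank_rat_real`). -/
def S_RES : Prop := ∀ (K : Type) [NormedField K] [CharZero K], Good K → ∀ ω : Ultrafilter ℕ, (ω : Filter ℕ) ≤ atTop → ∀ (β : ℕ → ℝ) (r : Scales) (ρ : ℝ), 0 < ρ →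
  ∃ S : Submodule ℚ (Vs K β r), Module.rank ℚ S = Cardinal.continuum ∧ (∀ s ∈ S, s ≠ 0 → nu ω s = ρ) ∧ ∀ x : Vs K β r, nu ω x ≤ ρ → ∃ s ∈ S, nu ω (x - s) < ρ

def J_RES : Prop := S_NU → S_RES

/-- HAHN: two such spaces are isometric. PROOF. Signs: `ν (-x) = ν x` (`c = -1`), `ν (x - y) ≤ max (ν x) (ν y)`. For each `ρ > 0` choose `S_ρ ≤ V`, `T_ρ ≤ W` (field `res`) and a linear isomorphism `α_ρ : S_ρ ≃ T_ρ`
(equal ranks: `nonempty_linearEquiv_of_rank_eq`). Call a partial linear map `φ : A → W` (`A ≤ V`; Mathlib `V →ₗ.[ℚ] W`, `LinearPMap`) compatible if for all `x ∈ A`, `ρ > 0`, `s ∈ S_ρ`: `ν (x - s) < ρ` implies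
`μ (φ x - α_ρ s) < ρ`. (1) Compatible implies `μ (φ x) = ν x`: if `ρ = ν x > 0` take `s ∈ S_ρ` with `ν (x - s) < ρ`; `s ≠ 0`, `μ (α s) = ρ`, so `μ (φ x) = ρ`; if `ν x = 0`, take `s = 0`, all `ρ > 0`.
(2) Zorn: unions of chains of compatible partial maps are compatible (`LinearPMap.sSup`, or graphs). (3) A maximal compatible `φ` is defined on `V`: let `x ∉ A`. By scaling (`ℚ^*`-invariance) it is enough to find `y ∈ W` such that
for all `a ∈ A`, `ρ > 0`, `s ∈ S_ρ`: `ν (x - a - s) < ρ` implies `μ (y - φ a - α_ρ s) < ρ`; then `x ↦ y` extends `φ` (`LinearPMap.supSpanSingleton`). (3a) If `ν (x - a)`, `a ∈ A`, has no minimum: `sph` of `W` for the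
family `φ a`, `a ∈ A`, with radii `ν (x - a)` (`μ (φ a - φ a') = ν (a - a') ≤ max`) gives `y` with `μ (y - φ a) ≤ ν (x - a)`. If `ν (x - a - s) < ρ`, `s ∈ S_ρ`, then `ν (x - a) ≤ ρ`, so there is `a' ∈ A` with `ν (x - a') < ρ`;
`ν (a' - a - s) < ρ`, so `μ (φ a' - φ a - α s) < ρ` and `μ (y - φ a') < ρ`. (3b) If the minimum is `δ = ν (x - a₀) = 0`: `y = φ a₀`. (3c) If `δ = ν (x - a₀) > 0` is the minimum: `s₀ ∈ S_δ` with `ν (x - a₀ - s₀) < δ` and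
`y = φ a₀ + α_δ s₀`. Let `ν (x - a - s) < ρ`, `s ∈ S_ρ`, and `b = a - a₀`. `δ ≤ ν (x - a) ≤ ρ`. If `ρ > δ`: `ν (b + s) < ρ`, so `μ (φ b + α s) < ρ` (compatibility with `-s`), and `μ (α s₀) ≤ δ < ρ`. If `ρ = δ`:
`ν (b - (s₀ - s)) < δ`, so `μ (φ b - α (s₀ - s)) < δ`. (4) Surjectivity: `y ∈ W`. `sph` of `V` for the family of all `x ∈ V` with radii `μ (y - φ x)` gives `x₀` with `ν (x₀ - x) ≤ μ (y - φ x)` for all `x`. If
`δ = μ (y - φ x₀) > 0`: `t ∈ T_δ`, `μ (y - φ x₀ - t) < δ`, `t ≠ 0`, `s = α_δ⁻¹ t`, `x = x₀ + s`: `μ (φ s - α s) < δ` (compatibility, `ν (s - s) = 0 < δ`), so `μ (y - φ x) < δ`, but `ν (x₀ - x) = ν s = δ`,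
a contradiction. -/
def S_HAHN : Prop := ∀ (V W : Type) [AddCommGroup V] [Module ℚ V] [AddCommGroup W] [Module ℚ W] (ν : V → ℝ) (μ : W → ℝ), USpace V ν → USpace W μ →
  ∃ φ : V →ₗ[ℚ] W, (∀ x, μ (φ x) = ν x) ∧ ∀ y, ∃ x, μ (y - φ x) = 0

/-- CON: the asymptotic cones. PROOF. Choose coordinates `π (κ q) (η q) = q` for each `q ∈ X`; base point `b_i = π (ξ_i) (β_i)`. `p ∈ ConeSeq`: `u_i = κ (p_i) - ξ_i`, `h = ulim ((η (p_i) - β_i)/r_i)`, `Θ p = (u, h)`.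
`dT n v v' ≥ |v - v'|` and `2 log n ≤ dT n v v' + v + v'` (`n > 0`). `dist (p_i) (b_i) ≤ C₁ r_i`, so with `c` of `scales_lower` (`C ≤ (|C|/c) r_i`): `dT (‖u_i‖, η (p_i), β_i) ≤ C₂ r_i`, `|η (p_i) - β_i| ≤ C₂ r_i`,
`‖u_i‖ exp (-β_i) ≤ exp (C₂ r_i)`: so `u ∈ Vs K β r` and `h` is a true limit. For `p, q` with coordinates `(u, h)`, `(u', h')`:
`dist (p_i) (q_i)/r_i = dT (‖u_i - u'_i‖, η_i, η'_i)/r_i + O(1/r_i)` and `dT (‖u_i - u'_i‖, η_i, η'_i)/r_i = 2 log (max ((‖u_i - u'_i‖ exp (-β_i))^{1/r_i}) (max (exp ((η_i-β_i)/r_i)) (exp ((η'_i-β_i)/r_i)))) -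
(η_i-β_i)/r_i - (η'_i-β_i)/r_i` (a power is monotone, `log (t^{1/r}) = (1/r) log t`), which tends to `dT (nu (u - u')) h h'` (`nu_tendsto`, continuity of `log` at positive numbers). Given `(v, h)` let
`p_i = π (ξ_i + v_i) (β_i + h r_i)`: `dist (p_i) (b_i) ≤ C + dT (‖v_i‖, β_i + h r_i, β_i) = C + 2 log (max (‖v_i‖ exp (-β_i)) (max (exp (h r_i)) 1)) - h r_i ≤ C₃ r_i`. Its coordinates `κ, η` satisfy
`dT (‖κ - ξ_i - v_i‖, η, β_i + h r_i) ≤ C` (the same point), so `|η - β_i - h r_i| ≤ C`, `(Θ p).2 = h`, and `‖κ - ξ_i - v_i‖ ≤ exp (β_i + h r_i + C)`, so `nu ((Θ p).1 - v) ≤ exp h`. -/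
def S_CON : Prop := ∀ (K : Type) [NormedField K] [CharZero K] (X : Type) [MetricSpace X] (π : K → ℝ → X) (C : ℝ), (∀ p, ∃ x h, π x h = p) →
  (∀ x h x' h', |dist (π x h) (π x' h') - dT ‖x - x'‖ h h'| ≤ C) → ∀ ω : Ultrafilter ℕ, (ω : Filter ℕ) ≤ atTop → ∀ (r : Scales) (b : ℕ → X),
    ∃ (β : ℕ → ℝ) (Θ : ConeSeq ω b r → Vs K β r × ℝ), (∀ p q, dist p q = dT (nu ω ((Θ p).1 - (Θ q).1)) (Θ p).2 (Θ q).2) ∧
      ∀ (v : Vs K β r) (h : ℝ), ∃ p, nu ω ((Θ p).1 - v) ≤ Real.exp h ∧ (Θ p).2 = h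

/-- the negative answer to Q1 -/
def S_main : Prop := ∃ (X Y : Type) (_ : MetricSpace X) (_ : MetricSpace Y), ProperSpace X ∧ ProperSpace Y ∧ Geodesic X ∧ Geodesic Y ∧
  (∀ ω : Ultrafilter ℕ, (∀ n, ω ≠ pure n) → ∀ (r : Scales) (x : ℕ → X) (y : ℕ → Y),
    Nonempty (Cone ω x r ≃ᵢ Cone ω y r) ∧ BiLip (Cone ω x r) (Cone ω y r)) ∧
  Spectrum X Pos ≠ Spectrum Y Pos ∧ Spectrum X Set.univ ≠ Spectrum Y Set.univ

end

end Pool.Agent.Q177.AC
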